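import Pool.Agent.Lib.MP_f146a9_al.DVD.Ort

/-! The homomorphism from the Artin group of type D to the split orthogonal group. -/

namespace Pool.Agent.Lib.MP_f146a9_al.DV

private theorem altProd_map {G H : Type*} [Group G] [Group H] (f : G →* H) (m : ℕ) (a b : G) :
    f (altProd a b m) = altProd (f a) (f b) m := by
  induction m generalizing a b with
  | zero => exact map_one f
  | succ m ih =>
    change f (a * altProd b a m) = f a * altProd (f b) (f a) m
    rw [map_mul, ih]

private theorem re {M : Type*} [Monoid M] {a b c d : M} (h : a * b = c * d) (x : M) :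
    a * (b * x) = c * (d * x) := by
  rw [← mul_assoc, h, mul_assoc]

private theorem re3 {M : Type*} [Monoid M] {a b : M} (h : a * b * a = b * a * b) (x : M) :
    a * (b * (a * x)) = b * (a * (b * x)) := by
  rw [← mul_assoc, ← mul_assoc, h, mul_assoc, mul_assoc]

private theorem re3' {M : Type*} [Monoid M] {a b : M} (h : a * b * a = b * a * b) :
    a * (b * a) = b * (a * b) := by
  rw [← mul_assoc, h, mul_assoc]

private theorem br2 {M : Type*} [Monoid M] {a b a' b' : M} (h1 : a * b = b * a)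
    (h2 : a * b' = b' * a) (h3 : a' * b = b * a') (h4 : a' * b' = b' * a') :
    (a * a') * (b * b') = (b * b') * (a * a') := by
  calc (a * a') * (b * b') = a * (a' * (b * b')) := by rw [mul_assoc]
    _ = a * (b * (a' * b')) := by rw [re h3]
    _ = b * (a * (a' * b')) := by rw [re h1]
    _ = b * (a * (b' * a')) := by rw [h4]
    _ = b * (b' * (a * a')) := by rw [re h2]
    _ = (b * b') * (a * a') := by rw [mul_assoc]

private theorem br3 {M : Type*} [Monoid M] {a b a' b' : M} (h1 : a * b * a = b * a * b)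
    (h2 : a' * b' * a' = b' * a' * b') (h3 : a * a' = a' * a) (h4 : b * b' = b' * b)
    (h5 : a * b' = b' * a) (h6 : a' * b = b * a') :
    (a * a') * ((b * b') * (a * a')) = (b * b') * ((a * a') * (b * b')) := by
  calc (a * a') * ((b * b') * (a * a')) = a * (a' * (b * (b' * (a * a')))) := by
        simp only [mul_assoc]
    _ = a * (b * (a' * (b' * (a * a')))) := by rw [re h6]
    _ = a * (b * (a' * (a * (b' * a')))) := by rw [re h5.symm]
    _ = a * (b * (a * (a' * (b' * a')))) := by rw [re h3.symm]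
    _ = b * (a * (b * (a' * (b' * a')))) := by rw [re3 h1]
    _ = b * (a * (b * (b' * (a' * b')))) := by rw [re3' h2]
    _ = b * (a * (b' * (b * (a' * b')))) := by rw [re h4]
    _ = b * (a * (b' * (a' * (b * b')))) := by rw [re h6]
    _ = b * (b' * (a * (a' * (b * b')))) := by rw [re h5]
    _ = (b * b') * ((a * a') * (b * b')) := by simp only [mul_assoc]

/-! ### row operations -/

private theorem sum_two {n : ℕ} (i : Fin n) (c : ℚ) (f : Fin (n + 1) → ℚ) :
    ∑ e, (if e = i.castSucc then (1 : ℚ) else if e = i.succ then c else 0) * f e =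
      f i.castSucc + c * f i.succ := by
  have hne : i.castSucc ≠ i.succ := (Fin.castSucc_lt_succ).ne
  rw [Finset.sum_eq_add_of_mem i.castSucc i.succ (Finset.mem_univ _) (Finset.mem_univ _) hne]
  · simp [hne.symm]
  · rintro e _ ⟨h1, h2⟩
    simp [h1, h2]

private theorem gen_row {n : ℕ} (i : Fin n) (k : ℚ) (b : Mat n) (a d : Fin (n + 1)) :
    (gen i k * b) a d = b a d + k * (uv i a * (b i.castSucc d - b i.succ d)) := by
  have hf : ∑ e, fv i e * b e d = b i.castSucc d - b i.succ d := by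
    have := sum_two i (-1) (fun e => b e d)
    unfold fv
    rw [this]
    ring
  rw [Matrix.mul_apply]
  simp only [gen_apply, add_mul, ite_mul, one_mul, zero_mul, Finset.sum_add_distrib,
    Finset.sum_ite_eq, Finset.mem_univ, if_true]
  rw [← hf, Finset.mul_sum, Finset.mul_sum]
  congr 1
  refine Finset.sum_congr rfl fun e _ => ?_
  ring

private theorem gen2_transpose {n : ℕ} (i : Fin n) (k : ℚ) : gen2 i k = (gen i k).transpose := by
  ext a b
  rw [Matrix.transpose_apply, gen_apply]
  unfold gen2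
  rw [Matrix.add_apply, Matrix.smul_apply, Matrix.vecMulVec_apply, Matrix.one_apply, smul_eq_mul]
  by_cases h : a = b
  · rw [if_pos h, if_pos h.symm]
    ring
  · rw [if_neg h, if_neg (Ne.symm h)]
    ring

private theorem gen2_row {n : ℕ} (i : Fin n) (k : ℚ) (b : Mat n) (a d : Fin (n + 1)) :
    (gen2 i k * b) a d = b a d + k * (fv i a * (b i.castSucc d + b i.succ d)) := by
  have hf : ∑ e, uv i e * b e d = b i.castSucc d + b i.succ d := by
    have := sum_two i 1 (fun e => b e d)
    unfold uv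
    rw [this]
    ring
  rw [Matrix.mul_apply]
  have h1 : ∀ e, gen2 i k a e * b e d = (if a = e then b e d else 0) +
      k * (fv i a * (uv i e * b e d)) := by
    intro e
    rw [gen2_transpose, Matrix.transpose_apply, gen_apply]
    by_cases h : a = e
    · rw [if_pos h, if_pos h.symm]
      ring
    · rw [if_neg h, if_neg (Ne.symm h)]
      ring
  rw [Finset.sum_congr rfl fun e _ => h1 e, Finset.sum_add_distrib, ← Finset.mul_sum,
    ← Finset.mul_sum, hf, Finset.sum_ite_eq, if_pos (Finset.mem_univ _)]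

private theorem gen2_zero {n : ℕ} (i : Fin n) : gen2 i 0 = 1 := by
  rw [gen2_transpose, gen_zero, Matrix.transpose_one]

private theorem gen2_comm {n : ℕ} (i j : Fin n) (hij : i ≠ j) (h1 : (j : ℕ) + 1 ≠ i)
    (h2 : (i : ℕ) + 1 ≠ j) : gen2 i 1 * gen2 j 1 = gen2 j 1 * gen2 i 1 := by
  rw [gen2_transpose, gen2_transpose, ← Matrix.transpose_mul, ← Matrix.transpose_mul,
    gen_comm i j hij h1 h2]

private theorem gen2_braid {n : ℕ} (i j : Fin n) (h : (j : ℕ) + 1 = i ∨ (i : ℕ) + 1 = j) :
    gen2 i 1 * gen2 j 1 * gen2 i 1 = gen2 j 1 * gen2 i 1 * gen2 j 1 := by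
  rw [gen2_transpose, gen2_transpose, ← Matrix.transpose_mul, ← Matrix.transpose_mul,
    ← Matrix.transpose_mul, ← Matrix.transpose_mul, ← mul_assoc, ← mul_assoc, gen_braid i j h]

private theorem uv_zero {n : ℕ} {i : Fin n} {a : Fin (n + 1)} (h1 : (a : ℕ) ≠ i)
    (h2 : (a : ℕ) ≠ i + 1) : uv i a = 0 := by
  unfold uv
  rw [if_neg fun h => h1 (by rw [h, Fin.val_castSucc]), if_neg fun h => h2 (by rw [h, Fin.val_succ])]

private theorem fv_zero {n : ℕ} {i : Fin n} {a : Fin (n + 1)} (h1 : (a : ℕ) ≠ i)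
    (h2 : (a : ℕ) ≠ i + 1) : fv i a = 0 := by
  unfold fv
  rw [if_neg fun h => h1 (by rw [h, Fin.val_castSucc]), if_neg fun h => h2 (by rw [h, Fin.val_succ])]

/-- disjoint supports -/
private theorem cross {n : ℕ} (i j : Fin n) (k l : ℚ) (h : (i : ℕ) + 1 < j ∨ (j : ℕ) + 1 < i) :
    gen i k * gen2 j l = gen2 j l * gen i k := by
  have u1 : uv i j.castSucc = 0 := uv_zero (by rw [Fin.val_castSucc]; omega)
    (by rw [Fin.val_castSucc]; omega)
  have u2 : uv i j.succ = 0 := uv_zero (by rw [Fin.val_succ]; omega) (by rw [Fin.val_succ]; omega)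
  have f1 : fv j i.castSucc = 0 := fv_zero (by rw [Fin.val_castSucc]; omega)
    (by rw [Fin.val_castSucc]; omega)
  have f2 : fv j i.succ = 0 := fv_zero (by rw [Fin.val_succ]; omega) (by rw [Fin.val_succ]; omega)
  have key : gen i k * (gen2 j l * 1) = gen2 j l * (gen i k * 1) := by
    ext a d
    rw [gen_row, gen2_row, gen2_row, gen2_row, gen2_row, gen_row, gen_row, gen_row, u1, u2, f1, f2]
    ring
  rwa [mul_one, mul_one] at key

/-- a permutation fixing the support -/
private theorem perm_gen {n : ℕ} (s : Equiv.Perm (Fin (n + 1))) (i : Fin n) (k : ℚ)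
    (h1 : s i.castSucc = i.castSucc) (h2 : s i.succ = i.succ) :
    pm s * gen i k = gen i k * pm s := by
  have g1 : s⁻¹ i.castSucc = i.castSucc := by rw [Equiv.Perm.inv_eq_iff_eq, h1]
  have g2 : s⁻¹ i.succ = i.succ := by rw [Equiv.Perm.inv_eq_iff_eq, h2]
  have hu : ∀ a, uv i (s⁻¹ a) = uv i a := by
    intro a
    unfold uv
    simp only [Equiv.Perm.inv_eq_iff_eq, h1, h2]
  have key : pm s * (gen i k * 1) = gen i k * (pm s * 1) := by
    ext a d
    rw [pm_mul_apply, gen_row, gen_row, pm_mul_apply, pm_mul_apply, pm_mul_apply, g1, g2, hu]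
  rwa [mul_one, mul_one] at key

private theorem perm_gen2 {n : ℕ} (s : Equiv.Perm (Fin (n + 1))) (i : Fin n) (k : ℚ)
    (h1 : s i.castSucc = i.castSucc) (h2 : s i.succ = i.succ) :
    pm s * gen2 i k = gen2 i k * pm s := by
  have g1 : s⁻¹ i.castSucc = i.castSucc := by rw [Equiv.Perm.inv_eq_iff_eq, h1]
  have g2 : s⁻¹ i.succ = i.succ := by rw [Equiv.Perm.inv_eq_iff_eq, h2]
  have hu : ∀ a, fv i (s⁻¹ a) = fv i a := by
    intro a
    unfold fv
    simp only [Equiv.Perm.inv_eq_iff_eq, h1, h2]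
  have key : pm s * (gen2 i k * 1) = gen2 i k * (pm s * 1) := by
    ext a d
    rw [pm_mul_apply, gen2_row, gen2_row, pm_mul_apply, pm_mul_apply, pm_mul_apply, g1, g2, hu]
  rwa [mul_one, mul_one] at key

/-! ### the generators of the chain -/

private theorem rev_val {m : ℕ} (i : Fin (m + 1)) : ((Fin.rev (na i) : Fin (2 * m + 1)) : ℕ) = 2 * m - i := by
  rw [Fin.val_rev]
  simp only [na]
  omega

private theorem genO_zero {m : ℕ} (i : Fin (m + 1)) : genO i 0 = 1 := by
  unfold genO
  rw [gen_zero, gen2_zero, one_mul]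

private theorem genO_comm {m : ℕ} (i j : Fin (m + 1)) (hi : (i : ℕ) < m) (hj : (j : ℕ) < m)
    (hij : (i : ℕ) ≠ j) (h1 : (j : ℕ) + 1 ≠ i) (h2 : (i : ℕ) + 1 ≠ j) :
    genO i 1 * genO j 1 = genO j 1 * genO i 1 := by
  have ri := rev_val i
  have rj := rev_val j
  have ni : ((na i : Fin (2 * m + 1)) : ℕ) = i := rfl
  have nj : ((na j : Fin (2 * m + 1)) : ℕ) = j := rfl
  unfold genO
  refine br2 (gen_comm _ _ (fun e => hij ?_) (by omega) (by omega)) (cross _ _ _ _ (by omega))
    (cross _ _ _ _ (by omega)).symm (gen2_comm _ _ (fun e => hij ?_) (by omega) (by omega))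
  · rw [← ni, ← nj, e]
  · have := congrArg Fin.val e
    omega

private theorem genO_braid {m : ℕ} (i j : Fin (m + 1)) (hi : (i : ℕ) < m) (hj : (j : ℕ) < m)
    (h : (j : ℕ) + 1 = i ∨ (i : ℕ) + 1 = j) :
    genO i 1 * (genO j 1 * genO i 1) = genO j 1 * (genO i 1 * genO j 1) := by
  have ri := rev_val i
  have rj := rev_val j
  have ni : ((na i : Fin (2 * m + 1)) : ℕ) = i := rfl
  have nj : ((na j : Fin (2 * m + 1)) : ℕ) = j := rfl
  unfold genO
  exact br3 (gen_braid _ _ (by omega)) (gen2_braid _ _ (by omega)) (cross _ _ _ _ (by omega))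
    (cross _ _ _ _ (by omega)) (cross _ _ _ _ (by omega)) (cross _ _ _ _ (by omega)).symm

/-! ### the last generator -/

private theorem tt_sq (m : ℕ) : (pm (tt m) : Mat (2 * m + 1)) * pm (tt m) = 1 := by
  rw [← pm_mul]
  unfold tt
  rw [Equiv.swap_mul_self, pm_one]

private theorem tt_genO {m : ℕ} (i : Fin (m + 1)) (hi : (i : ℕ) + 1 < m) (k : ℚ) :
    pm (tt m) * genO i k = genO i k * pm (tt m) := by
  have ri := rev_val i
  have ni : ((na i : Fin (2 * m + 1)) : ℕ) = i := rfl
  have nl : ((na (Fin.last m) : Fin (2 * m + 1)) : ℕ) = m := rfl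
  have fix : ∀ a : Fin (2 * m + 1 + 1), (a : ℕ) ≠ m → (a : ℕ) ≠ m + 1 → tt m a = a := by
    intro a h1 h2
    unfold tt
    refine Equiv.swap_apply_of_ne_of_ne (fun h => h1 ?_) (fun h => h2 ?_)
    · rw [h, Fin.val_castSucc, nl]
    · rw [h, Fin.val_succ, nl]
  have e1 := perm_gen (tt m) (na i) k (fix _ (by rw [Fin.val_castSucc]; omega)
    (by rw [Fin.val_castSucc]; omega)) (fix _ (by rw [Fin.val_succ]; omega)
    (by rw [Fin.val_succ]; omega))
  have e2 := perm_gen2 (tt m) (Fin.rev (na i)) k (fix _ (by rw [Fin.val_castSucc]; omega)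
    (by rw [Fin.val_castSucc]; omega)) (fix _ (by rw [Fin.val_succ]; omega)
    (by rw [Fin.val_succ]; omega))
  unfold genO
  rw [← mul_assoc, e1, mul_assoc, e2, mul_assoc]

/-- the two last generators commute -/
private theorem last_comm (m : ℕ) :
    genO (pl m) 1 * (pm (tt (m + 2)) * genO (pl m) 1 * pm (tt (m + 2))) =
      pm (tt (m + 2)) * genO (pl m) 1 * pm (tt (m + 2)) * genO (pl m) 1 := by
  obtain ⟨j, hj⟩ : ∃ j : Fin (2 * (m + 2) + 1), j = na (pl m) := ⟨_, rfl⟩
  obtain ⟨r, hr⟩ : ∃ r : Fin (2 * (m + 2) + 1), r = Fin.rev (na (pl m)) := ⟨_, rfl⟩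
  obtain ⟨s, hs⟩ : ∃ s : Equiv.Perm (Fin (2 * (m + 2) + 1 + 1)), s = tt (m + 2) := ⟨_, rfl⟩
  have vj : (j : ℕ) = m + 1 := by rw [hj]; rfl
  have vr : (r : ℕ) = m + 3 := by
    rw [hr, rev_val]
    change 2 * (m + 2) - (m + 1) = _
    omega
  have e1 : s = Equiv.swap j.succ r.castSucc := by
    rw [hs]
    unfold tt
    have k1 : (na (Fin.last (m + 2))).castSucc = j.succ := by
      apply Fin.ext
      rw [Fin.val_succ, vj]
      rfl
    have k2 : (na (Fin.last (m + 2))).succ = r.castSucc := by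
      apply Fin.ext
      rw [Fin.val_castSucc, vr, Fin.val_succ]
      rfl
    rw [k1, k2]
  have hss : ∀ a, s (s a) = a := by
    intro a
    rw [e1, Equiv.swap_apply_self]
  have hsi : s⁻¹ = s := by rw [e1, Equiv.swap_inv]
  -- values
  have n1 : j.castSucc ≠ j.succ := (Fin.castSucc_lt_succ).ne
  have n2 : r.castSucc ≠ r.succ := (Fin.castSucc_lt_succ).ne
  have u1 : uv j j.castSucc = 1 := by simp [uv]
  have u2 : uv j j.succ = 1 := by simp [uv]
  have u3 : uv j r.castSucc = 0 := uv_zero (by rw [Fin.val_castSucc]; omega)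
    (by rw [Fin.val_castSucc]; omega)
  have u4 : uv j r.succ = 0 := uv_zero (by rw [Fin.val_succ]; omega) (by rw [Fin.val_succ]; omega)
  have f1 : fv r j.castSucc = 0 := fv_zero (by rw [Fin.val_castSucc]; omega)
    (by rw [Fin.val_castSucc]; omega)
  have f2 : fv r j.succ = 0 := fv_zero (by rw [Fin.val_succ]; omega) (by rw [Fin.val_succ]; omega)
  have f3 : fv r r.castSucc = 1 := by simp [fv]
  have f4 : fv r r.succ = -1 := by simp [fv, n2.symm]
  have s1 : s j.castSucc = j.castSucc := by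
    rw [e1]
    refine Equiv.swap_apply_of_ne_of_ne n1 fun h => ?_
    have := congrArg Fin.val h
    rw [Fin.val_castSucc, Fin.val_castSucc] at this
    omega
  have s2 : s j.succ = r.castSucc := by rw [e1, Equiv.swap_apply_left]
  have s3 : s r.castSucc = j.succ := by rw [e1, Equiv.swap_apply_right]
  have s4 : s r.succ = r.succ := by
    rw [e1]
    refine Equiv.swap_apply_of_ne_of_ne (fun h => ?_) n2.symm
    have := congrArg Fin.val h
    rw [Fin.val_succ, Fin.val_succ] at this
    omega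
  have hsum : ∀ a, fv r (s a) + uv j (s a) = fv r a + uv j a := by
    intro a
    by_cases h1 : a = j.succ
    · rw [h1, s2, f3, u3, f2, u2]
      ring
    · by_cases h2 : a = r.castSucc
      · rw [h2, s3, f3, u3, f2, u2]
        ring
      · have h3 : s a = a := by rw [e1, Equiv.swap_apply_of_ne_of_ne h1 h2]
        rw [h3]
  have hG : ∀ (Y : Mat (2 * (m + 2) + 1)) (a d : Fin (2 * (m + 2) + 1 + 1)),
      (genO (pl m) 1 * Y) a d = Y a d + fv r a * (Y r.castSucc d + Y r.succ d) +
        uv j a * (Y j.castSucc d - Y j.succ d) := by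
    intro Y a d
    unfold genO
    rw [← hr, ← hj, mul_assoc, gen_row, gen2_row, gen2_row, gen2_row, f1, f2]
    ring
  have hG' : ∀ (Y : Mat (2 * (m + 2) + 1)) (a d : Fin (2 * (m + 2) + 1 + 1)),
      (pm s * genO (pl m) 1 * pm s * Y) a d = Y a d + fv r (s a) * (Y j.succ d + Y r.succ d) +
        uv j (s a) * (Y j.castSucc d - Y r.castSucc d) := by
    intro Y a d
    rw [mul_assoc, mul_assoc, pm_mul_apply, hsi, hG, pm_mul_apply, pm_mul_apply, pm_mul_apply,
      pm_mul_apply, pm_mul_apply, hsi, hss, s1, s2, s3, s4]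
  have key : genO (pl m) 1 * (pm s * genO (pl m) 1 * pm s * 1) =
      pm s * genO (pl m) 1 * pm s * (genO (pl m) 1 * 1) := by
    ext a d
    simp only [hG, hG', s1, s2, s3, s4, f1, f2, f3, f4, u1, u2, u3, u4]
    have := hsum a
    linear_combination ((1 : Mat (2 * (m + 2) + 1)) j.succ d + (1 : Mat (2 * (m + 2) + 1)) r.succ d +
      (1 : Mat (2 * (m + 2) + 1)) r.castSucc d - (1 : Mat (2 * (m + 2) + 1)) j.castSucc d) * this
  rw [mul_one, mul_one] at key
  rw [← hs]
  exact key

/-! ### all generators -/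

private theorem genD_last {m : ℕ} (i : Fin (m + 2 + 1)) (h : (i : ℕ) = m + 2) (k : ℚ) :
    genD i k = pm (tt (m + 2)) * genO (pl m) k * pm (tt (m + 2)) := if_pos (Fin.ext h)

private theorem genD_ne {m : ℕ} (i : Fin (m + 2 + 1)) (h : (i : ℕ) < m + 2) (k : ℚ) :
    genD i k = genO i k := if_neg fun e => by
  rw [e, Fin.val_last] at h
  omega

private theorem pl_ne (m : ℕ) : pl m ≠ Fin.last (m + 2) := fun h => by
  have := congrArg Fin.val h
  rw [Fin.val_last] at this
  change m + 1 = m + 2 at this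
  omega

private theorem genD_zero {m : ℕ} (i : Fin (m + 2 + 1)) : genD i 0 = 1 := by
  have hi := i.is_lt
  by_cases h : (i : ℕ) = m + 2
  · rw [genD_last i h, genO_zero, mul_one, tt_sq]
  · rw [genD_ne i (by omega), genO_zero]

private theorem genD_mul {m : ℕ} (i : Fin (m + 2 + 1)) (k l : ℚ) :
    genD i k * genD i l = genD i (k + l) := by
  have hi := i.is_lt
  by_cases h : (i : ℕ) = m + 2
  · rw [genD_last i h, genD_last i h, genD_last i h, ← genO_mul (pl m) (pl_ne m) k l]
    calc pm (tt (m + 2)) * genO (pl m) k * pm (tt (m + 2)) *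
          (pm (tt (m + 2)) * genO (pl m) l * pm (tt (m + 2)))
        = pm (tt (m + 2)) * genO (pl m) k * (pm (tt (m + 2)) * pm (tt (m + 2))) *
          genO (pl m) l * pm (tt (m + 2)) := by simp only [mul_assoc]
      _ = _ := by rw [tt_sq, mul_one, mul_assoc (pm (tt (m + 2)))]
  · rw [genD_ne i (by omega), genD_ne i (by omega), genD_ne i (by omega)]
    exact genO_mul i (fun e => h (by rw [e, Fin.val_last])) k l

private def gu {m : ℕ} (i : Fin (m + 2 + 1)) : (Mat (2 * (m + 2) + 1))ˣ where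
  val := genD i 1
  inv := genD i (-1)
  val_inv := by rw [genD_mul, add_neg_cancel, genD_zero]
  inv_val := by rw [genD_mul, neg_add_cancel, genD_zero]

private theorem gu_zpow {m : ℕ} (i : Fin (m + 2 + 1)) (k : ℤ) :
    (((gu i) ^ k : (Mat (2 * (m + 2) + 1))ˣ) : Mat (2 * (m + 2) + 1)) = genD i k := by
  induction k using Int.induction_on with
  | zero =>
    rw [zpow_zero, Units.val_one, Int.cast_zero, genD_zero]
  | succ k ih =>
    rw [zpow_add_one, Units.val_mul, ih]
    change genD i _ * genD i 1 = _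
    rw [genD_mul]
    push_cast
    rfl
  | pred k ih =>
    rw [zpow_sub_one, Units.val_mul, ih]
    change genD i _ * genD i (-1) = _
    rw [genD_mul]
    push_cast
    rw [sub_eq_add_neg]

private theorem comm_last {m : ℕ} (i j : Fin (m + 2 + 1)) (hi : (i : ℕ) = m + 2) (hj : (j : ℕ) < m) :
    genD i 1 * genD j 1 = genD j 1 * genD i 1 := by
  rw [genD_last i hi, genD_ne j (by omega)]
  have h1 := tt_genO j (by omega) 1
  have h2 : genO (pl m) 1 * genO j 1 = genO j 1 * genO (pl m) 1 := by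
    have h3 : ((pl m : Fin (m + 2 + 1)) : ℕ) = m + 1 := rfl
    exact genO_comm (pl m) j (by omega) (by omega) (by omega) (by omega) (by omega)
  calc pm (tt (m + 2)) * genO (pl m) 1 * pm (tt (m + 2)) * genO j 1
      = pm (tt (m + 2)) * genO (pl m) 1 * (pm (tt (m + 2)) * genO j 1) := by rw [mul_assoc]
    _ = pm (tt (m + 2)) * (genO (pl m) 1 * genO j 1) * pm (tt (m + 2)) := by
      rw [h1]
      simp only [mul_assoc]
    _ = (pm (tt (m + 2)) * genO j 1) * genO (pl m) 1 * pm (tt (m + 2)) := by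
      rw [h2]
      simp only [mul_assoc]
    _ = _ := by
      rw [h1]
      simp only [mul_assoc]

private theorem braid_last {m : ℕ} (i j : Fin (m + 2 + 1)) (hi : (i : ℕ) = m + 2) (hj : (j : ℕ) = m) :
    genD i 1 * (genD j 1 * genD i 1) = genD j 1 * (genD i 1 * genD j 1) := by
  rw [genD_last i hi, genD_ne j (by omega)]
  obtain ⟨t, ht⟩ : ∃ t : Mat (2 * (m + 2) + 1), t = pm (tt (m + 2)) := ⟨_, rfl⟩
  obtain ⟨g, hg⟩ : ∃ g, g = genO (pl m) 1 := ⟨_, rfl⟩
  obtain ⟨f, hf⟩ : ∃ f, f = genO j 1 := ⟨_, rfl⟩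
  have h1 : t * f = f * t := by
    rw [ht, hf]
    exact tt_genO j (by omega) 1
  have h2 : t * t = 1 := by
    rw [ht]
    exact tt_sq _
  have h3 : g * (f * g) = f * (g * f) := by
    rw [hg, hf]
    have h4 : ((pl m : Fin (m + 2 + 1)) : ℕ) = m + 1 := rfl
    exact genO_braid (pl m) j (by omega) (by omega) (by omega)
  rw [← ht, ← hg, ← hf]
  calc t * g * t * (f * (t * g * t)) = t * g * (t * f) * (t * g * t) := by simp only [mul_assoc]
    _ = t * g * f * (t * t) * g * t := by
      rw [h1]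
      simp only [mul_assoc]
    _ = t * (g * (f * g)) * t := by
      rw [h2]
      simp only [mul_assoc, mul_one]
    _ = t * f * g * (f * t) := by
      rw [h3]
      simp only [mul_assoc]
    _ = f * t * g * (t * f) := by rw [h1]
    _ = f * (t * g * t * f) := by simp only [mul_assoc]

private theorem gu_alt {m : ℕ} (i j : Fin (m + 2 + 1)) :
    altProd (gu i) (gu j) (typeD m i j) = altProd (gu j) (gu i) (typeD m i j) := by
  have h1 : typeD m i j = if i = j then 1
      else if ((i : ℕ) = m + 2 ∧ (j : ℕ) = m) ∨ ((j : ℕ) = m + 2 ∧ (i : ℕ) = m) then 3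
        else if ((i : ℕ) = m + 2 ∧ (j : ℕ) = m + 1) ∨ ((j : ℕ) = m + 2 ∧ (i : ℕ) = m + 1) then 2
          else if (j : ℕ) + 1 = i ∨ (i : ℕ) + 1 = j then 3 else 2 := rfl
  rw [h1]
  have hi := i.is_lt
  have hj := j.is_lt
  have two : genD i 1 * genD j 1 = genD j 1 * genD i 1 →
      altProd (gu i) (gu j) 2 = altProd (gu j) (gu i) 2 := by
    intro h
    refine Units.ext ?_
    change genD i 1 * (genD j 1 * 1) = genD j 1 * (genD i 1 * 1)
    rw [mul_one, mul_one, h]
  have three : genD i 1 * (genD j 1 * genD i 1) = genD j 1 * (genD i 1 * genD j 1) →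
      altProd (gu i) (gu j) 3 = altProd (gu j) (gu i) 3 := by
    intro h
    refine Units.ext ?_
    change genD i 1 * (genD j 1 * (genD i 1 * 1)) = genD j 1 * (genD i 1 * (genD j 1 * 1))
    rw [mul_one, mul_one, h]
  by_cases c1 : i = j
  · rw [c1]
  · have hv : (i : ℕ) ≠ j := fun e => c1 (Fin.ext e)
    rw [if_neg c1]
    by_cases c2 : ((i : ℕ) = m + 2 ∧ (j : ℕ) = m) ∨ ((j : ℕ) = m + 2 ∧ (i : ℕ) = m)
    · rw [if_pos c2]
      apply three
      rcases c2 with ⟨k1, k2⟩ | ⟨k1, k2⟩
      · exact braid_last i j k1 k2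
      · exact (braid_last j i k1 k2).symm
    · rw [if_neg c2]
      by_cases c3 : ((i : ℕ) = m + 2 ∧ (j : ℕ) = m + 1) ∨ ((j : ℕ) = m + 2 ∧ (i : ℕ) = m + 1)
      · rw [if_pos c3]
        apply two
        rcases c3 with ⟨k1, k2⟩ | ⟨k1, k2⟩
        · have k3 : j = pl m := Fin.ext k2
          rw [genD_last i k1, genD_ne j (by omega), k3]
          exact (last_comm m).symm
        · have k3 : i = pl m := Fin.ext k2
          rw [genD_last j k1, genD_ne i (by omega), k3]
          exact last_comm m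
      · rw [if_neg c3]
        by_cases c4 : (j : ℕ) + 1 = i ∨ (i : ℕ) + 1 = j
        · rw [if_pos c4]
          apply three
          rw [genD_ne i (by omega), genD_ne j (by omega)]
          exact genO_braid i j (by omega) (by omega) c4
        · rw [if_neg c4]
          apply two
          by_cases c5 : (i : ℕ) = m + 2
          · exact comm_last i j c5 (by omega)
          · by_cases c6 : (j : ℕ) = m + 2
            · exact (comm_last j i c6 (by omega)).symm
            · rw [genD_ne i (by omega), genD_ne j (by omega)]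
              exact genO_comm i j (by omega) (by omega) hv (fun e => c4 (Or.inl e))
                fun e => c4 (Or.inr e)

theorem exists_homD (m : ℕ) : ∃ ρ : ArtinGroup (typeD m) →* (Mat (2 * (m + 2) + 1))ˣ,
    ∀ (i : Fin (m + 2 + 1)) (k : ℤ),
    ((ρ ((PresentedGroup.of i : ArtinGroup (typeD m)) ^ k) : (Mat (2 * (m + 2) + 1))ˣ) :
      Mat (2 * (m + 2) + 1)) = genD i k := by
  have h1 : ∀ r ∈ artinRels (typeD m), FreeGroup.lift (gu (m := m)) r = 1 := by
    rintro r ⟨i, j, _, rfl⟩
    rw [map_mul, map_inv, altProd_map, altProd_map, FreeGroup.lift_apply_of, FreeGroup.lift_apply_of, gu_alt, mul_inv_cancel]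
  refine ⟨PresentedGroup.toGroup h1, fun i k => ?_⟩
  rw [map_zpow, PresentedGroup.toGroup.of, gu_zpow]

end Pool.Agent.Lib.MP_f146a9_al.DV
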