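import Pool.Agent.Lib.MP_f146a9_al.DVD.PermFD

namespace Pool.Agent.Lib.MP_f146a9_al.DV

private theorem PLD_tt {m : ℕ} (x : Fin (2 * m + 1 + 1)) :
    ((tt m x : Fin (2 * m + 1 + 1)) : ℕ) = if (x : ℕ) = m then m + 1 else if (x : ℕ) = m + 1 then m else x := by
  have r1 : (((na (Fin.last m)).castSucc : Fin (2 * m + 1 + 1)) : ℕ) = m := rfl
  have r2 : (((na (Fin.last m)).succ : Fin (2 * m + 1 + 1)) : ℕ) = m + 1 := rfl
  unfold tt
  rw [Equiv.swap_apply_def]
  simp only [Fin.ext_iff, r1, r2]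
  split_ifs <;> (try simp only [r1, r2] at *)

private theorem PLD_O {m : ℕ} (i : Fin (m + 1)) (hi : (i : ℕ) < m) (x : Fin (2 * m + 1 + 1)) :
    ((swO i x : Fin (2 * m + 1 + 1)) : ℕ) = if (x : ℕ) = i then (i : ℕ) + 1 else if (x : ℕ) = i + 1 then i
      else if (x : ℕ) = 2 * m - i then 2 * m + 1 - i else if (x : ℕ) = 2 * m + 1 - i then 2 * m - i
      else x := by
  have hx := x.2
  have q1 : (((na i).castSucc : Fin (2 * m + 1 + 1)) : ℕ) = i := rfl
  have q2 : (((na i).succ : Fin (2 * m + 1 + 1)) : ℕ) = i + 1 := rfl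
  have r1 : (((Fin.rev (na i)).castSucc : Fin (2 * m + 1 + 1)) : ℕ) = 2 * m - i := by
    simp only [Fin.val_castSucc, Fin.val_rev, na]
    omega
  have r2 : (((Fin.rev (na i)).succ : Fin (2 * m + 1 + 1)) : ℕ) = 2 * m + 1 - i := by
    simp only [Fin.val_succ, Fin.val_rev, na]
    omega
  unfold swO
  rw [Equiv.Perm.mul_apply, Equiv.swap_apply_def, Equiv.swap_apply_def]
  simp only [Fin.ext_iff, q1, q2, r1, r2]
  split_ifs <;> (try simp only [q1, q2, r1, r2] at *) <;> omega

private theorem PLD_last {m : ℕ} {i : Fin (m + 2 + 1)} : i = Fin.last (m + 2) ↔ (i : ℕ) = m + 2 :=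
  ⟨fun h => by rw [h]; rfl, fun h => Fin.ext h⟩

private theorem PLD_P {m : ℕ} (i : Fin (m + 2 + 1)) :
    ((pD i : Fin (2 * (m + 2) + 1 + 1)) : ℕ) = if (i : ℕ) = m + 2 then m + 1 else (i : ℕ) := by
  unfold pD
  have r : (((na (pl m)).castSucc : Fin (2 * (m + 2) + 1 + 1)) : ℕ) = m + 1 := rfl
  by_cases h : i = Fin.last (m + 2)
  · rw [if_pos h, if_pos (PLD_last.1 h), PLD_tt, r]
    split_ifs <;> omega
  · rw [if_neg h, if_neg fun e => h (PLD_last.2 e)]
    rfl

private theorem PLD_Q {m : ℕ} (i : Fin (m + 2 + 1)) :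
    ((qD i : Fin (2 * (m + 2) + 1 + 1)) : ℕ) = if (i : ℕ) = m + 2 then m + 3 else (i : ℕ) + 1 := by
  unfold qD
  have r : (((na (pl m)).succ : Fin (2 * (m + 2) + 1 + 1)) : ℕ) = m + 2 := rfl
  by_cases h : i = Fin.last (m + 2)
  · rw [if_pos h, if_pos (PLD_last.1 h), PLD_tt, r]
    split_ifs <;> omega
  · rw [if_neg h, if_neg fun e => h (PLD_last.2 e)]
    rfl

private theorem PLD_val {m : ℕ} (i : Fin (m + 2 + 1)) (x : Fin (2 * (m + 2) + 1 + 1)) :
    ((swD i x : Fin (2 * (m + 2) + 1 + 1)) : ℕ) =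
      if (i : ℕ) = m + 2 then (if (x : ℕ) = m + 1 then m + 3 else if (x : ℕ) = m + 3 then m + 1
        else if (x : ℕ) = m + 2 then m + 4 else if (x : ℕ) = m + 4 then m + 2 else (x : ℕ))
      else (if (x : ℕ) = i then (i : ℕ) + 1 else if (x : ℕ) = i + 1 then (i : ℕ)
        else if (x : ℕ) = 2 * (m + 2) - i then 2 * (m + 2) + 1 - i
        else if (x : ℕ) = 2 * (m + 2) + 1 - i then 2 * (m + 2) - i else (x : ℕ)) := by
  have hi := i.2
  have hx := x.2
  unfold swD
  by_cases h : i = Fin.last (m + 2)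
  · have hp : ((pl m : Fin (m + 2 + 1)) : ℕ) = m + 1 := rfl
    rw [if_pos h, if_pos (PLD_last.1 h), Equiv.Perm.mul_apply, Equiv.Perm.mul_apply, PLD_tt,
      PLD_O _ (by rw [hp]; omega), PLD_tt, hp]
    split_ifs <;> omega
  · have h' : (i : ℕ) ≠ m + 2 := fun e => h (PLD_last.2 e)
    rw [if_neg h, if_neg h', PLD_O _ (by omega)]

theorem pD_lt_qD {m : ℕ} (i : Fin (m + 2 + 1)) : pD i < qD i := by
  rw [Fin.lt_def, PLD_P, PLD_Q]
  split_ifs <;> omega

private theorem PLD_rev {m : ℕ} (x : Fin (2 * (m + 2) + 1 + 1)) :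
    ((Fin.rev x : Fin (2 * (m + 2) + 1 + 1)) : ℕ) = 2 * (m + 2) + 1 - x := by
  rw [Fin.val_rev]
  omega

/-- adjacent nodes, values only -/
private def PLDnb (m i j : ℕ) : Prop :=
  (i + 1 = j ∧ j ≤ m + 1 ∨ i = m ∧ j = m + 2) ∨ (j + 1 = i ∧ i ≤ m + 1 ∨ j = m ∧ i = m + 2)

private theorem PLD_fin {m : ℕ} (g : Fin (2 * (m + 2) + 1 + 1) → Fin (2 * (m + 2) + 1 + 1))
    (i j : Fin (m + 2 + 1)) (hadj : PLDnb m i j) (A1 : g (pD i) < g (qD i)) (A2 : g (pD j) < g (qD j)) :
    g (swD j (pD i)) < g (swD j (qD i)) ∧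
    g (swD i (swD j (pD i))) < g (swD i (swD j (qD i))) := by
  have hi := i.2
  have hj := j.2
  rcases hadj with h | h
  · have e1 : qD i = pD j := Fin.ext (by rw [PLD_P, PLD_Q]; split_ifs <;> omega)
    have a1 : swD j (pD i) = pD i :=
      Fin.ext (by rw [PLD_val, PLD_P]; split_ifs <;> omega)
    have a2 : swD j (qD i) = qD j :=
      Fin.ext (by rw [PLD_val, PLD_Q, PLD_Q]; split_ifs <;> omega)
    have a3 : swD i (pD i) = pD j :=
      Fin.ext (by rw [PLD_val, PLD_P, PLD_P]; split_ifs <;> omega)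
    have a4 : swD i (qD j) = qD j :=
      Fin.ext (by rw [PLD_val, PLD_Q]; split_ifs <;> omega)
    rw [a1, a2, a3, a4]
    rw [e1] at A1
    exact ⟨A1.trans A2, A2⟩
  · have e1 : pD i = qD j := Fin.ext (by rw [PLD_P, PLD_Q]; split_ifs <;> omega)
    have a1 : swD j (pD i) = pD j :=
      Fin.ext (by rw [PLD_val, PLD_P, PLD_P]; split_ifs <;> omega)
    have a2 : swD j (qD i) = qD i :=
      Fin.ext (by rw [PLD_val, PLD_Q]; split_ifs <;> omega)
    have a3 : swD i (pD j) = pD j :=
      Fin.ext (by rw [PLD_val, PLD_P]; split_ifs <;> omega)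
    have a4 : swD i (qD i) = qD j :=
      Fin.ext (by rw [PLD_val, PLD_Q, PLD_Q]; split_ifs <;> omega)
    rw [a1, a2, a3, a4]
    rw [e1] at A1
    exact ⟨A2.trans A1, A2⟩

private theorem PLD_fin2 {m : ℕ} (g : Fin (2 * (m + 2) + 1 + 1) → Fin (2 * (m + 2) + 1 + 1))
    (hs : ∀ x, g (Fin.rev x) = Fin.rev (g x)) (i j : Fin (m + 2 + 1)) (hij : (i : ℕ) ≠ j)
    (hadj : ¬ PLDnb m i j) (A1 : g (pD i) < g (qD i)) :
    g (swD j (pD i)) < g (swD j (qD i)) := by
  have hi := i.2
  have hj := j.2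
  unfold PLDnb at hadj
  by_cases h : (i : ℕ) = m + 1 ∧ (j : ℕ) = m + 2 ∨ (i : ℕ) = m + 2 ∧ (j : ℕ) = m + 1
  · have a1 : swD j (pD i) = Fin.rev (qD i) :=
      Fin.ext (by rw [PLD_rev, PLD_val, PLD_P, PLD_Q]; split_ifs <;> omega)
    have a2 : swD j (qD i) = Fin.rev (pD i) :=
      Fin.ext (by rw [PLD_rev, PLD_val, PLD_P, PLD_Q]; split_ifs <;> omega)
    rw [a1, a2, hs, hs]
    exact Fin.rev_lt_rev.2 A1
  · have a1 : swD j (pD i) = pD i :=
      Fin.ext (by rw [PLD_val, PLD_P]; split_ifs <;> omega)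
    have a2 : swD j (qD i) = qD i :=
      Fin.ext (by rw [PLD_val, PLD_Q]; split_ifs <;> omega)
    rw [a1, a2]
    exact A1

private theorem PLD_M {m : ℕ} (i j : Fin (m + 2 + 1)) (hij : i ≠ j) :
    typeD m i j = if ((i : ℕ) = m + 2 ∧ (j : ℕ) = m) ∨ ((j : ℕ) = m + 2 ∧ (i : ℕ) = m) then 3
        else if ((i : ℕ) = m + 2 ∧ (j : ℕ) = m + 1) ∨ ((j : ℕ) = m + 2 ∧ (i : ℕ) = m + 1) then 2
          else if (j : ℕ) + 1 = i ∨ (i : ℕ) + 1 = j then 3 else 2 := by
  have h : typeD m i j = if i = j then 1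
      else if ((i : ℕ) = m + 2 ∧ (j : ℕ) = m) ∨ ((j : ℕ) = m + 2 ∧ (i : ℕ) = m) then 3
        else if ((i : ℕ) = m + 2 ∧ (j : ℕ) = m + 1) ∨ ((j : ℕ) = m + 2 ∧ (i : ℕ) = m + 1) then 2
          else if (j : ℕ) + 1 = i ∨ (i : ℕ) + 1 = j then 3 else 2 := rfl
  rw [h, if_neg hij]

private theorem PLD_comm {m : ℕ} {W : Type*} [Group W] (cs : CoxeterSystem (typeD m) W)
    {i j : Fin (m + 2 + 1)} (hij : i ≠ j) (h1 : ¬ PLDnb m i j) :
    cs.simple i * cs.simple j = cs.simple j * cs.simple i := by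
  have hijv : (i : ℕ) ≠ j := fun e => hij (Fin.ext e)
  have hi := i.2
  have hj := j.2
  unfold PLDnb at h1
  have hM : typeD m i j = 2 := by
    rw [PLD_M i j hij]
    split_ifs <;> first | rfl | (exfalso; omega)
  have h := cs.simple_mul_simple_pow i j
  rw [hM, pow_two] at h
  have h3 := eq_inv_of_mul_eq_one_left h
  rwa [mul_inv_rev, cs.inv_simple, cs.inv_simple] at h3

private theorem PLD_braid3 {m : ℕ} {W : Type*} [Group W] (cs : CoxeterSystem (typeD m) W)
    {i j : Fin (m + 2 + 1)} (hij : PLDnb m i j) :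
    cs.simple i * cs.simple j * cs.simple i = cs.simple j * cs.simple i * cs.simple j := by
  unfold PLDnb at hij
  have hi := i.2
  have hj := j.2
  have hne : i ≠ j := by rintro rfl; omega
  have hM : typeD m i j = 3 := by
    rw [PLD_M i j hne]
    split_ifs <;> first | rfl | (exfalso; omega)
  have h := cs.simple_mul_simple_pow i j
  rw [hM, pow_succ, pow_two] at h
  have h3 := eq_inv_of_mul_eq_one_left h
  rw [mul_inv_rev, cs.inv_simple, cs.inv_simple] at h3
  have h4 : cs.simple i * cs.simple j * cs.simple i =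
      cs.simple i * cs.simple j * (cs.simple i * cs.simple j) * cs.simple j := by
    rw [mul_assoc (cs.simple i * cs.simple j) (cs.simple i * cs.simple j) (cs.simple j),
      mul_assoc (cs.simple i) (cs.simple j) (cs.simple j), cs.simple_mul_simple_self, mul_one]
  rw [h4, h3]

private theorem PLD_inv {m : ℕ} {W : Type*} [Group W] (cs : CoxeterSystem (typeD m) W)
    (f : W →* Equiv.Perm (Fin (2 * (m + 2) + 1 + 1))) (hf : ∀ i : Fin (m + 2 + 1), f (cs.simple i) = swD i)
    (j : Fin (m + 2 + 1)) (w : W) (x : Fin (2 * (m + 2) + 1 + 1)) :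
    (f (cs.simple j * w))⁻¹ x = (f w)⁻¹ (swD j x) := by
  have h : (swD j : Equiv.Perm (Fin (2 * (m + 2) + 1 + 1)))⁻¹ = swD j := by
    rw [← hf, ← map_inv, cs.inv_simple]
  rw [map_mul, mul_inv_rev, Equiv.Perm.mul_apply, hf, h]

private theorem PLD_A {m : ℕ} {W : Type*} [Group W] (cs : CoxeterSystem (typeD m) W)
    (f : W →* Equiv.Perm (Fin (2 * (m + 2) + 1 + 1))) (hf : ∀ i : Fin (m + 2 + 1), f (cs.simple i) = swD i)
    (N : ℕ) : ∀ (w : W) (i : Fin (m + 2 + 1)), cs.length w = N → cs.length w < cs.length (cs.simple i * w) →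
    (f w)⁻¹ (pD i) < (f w)⁻¹ (qD i) := by
  induction N using Nat.strong_induction_on with
  | _ N ih =>
    intro w i hN hi
    by_cases h1 : w = 1
    · rw [h1, map_one, inv_one]
      exact pD_lt_qD i
    obtain ⟨j, hj⟩ := cs.exists_leftDescent_of_ne_one h1
    have hj' : cs.length (cs.simple j * w) < cs.length w := hj
    have hij : i ≠ j := by
      rintro rfl
      omega
    have hijv : (i : ℕ) ≠ j := fun e => hij (Fin.ext e)
    obtain ⟨w', hw'⟩ : ∃ w', w' = cs.simple j * w := ⟨_, rfl⟩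
    have hw : w = cs.simple j * w' := by rw [hw', cs.simple_mul_simple_cancel_left]
    have hl' : cs.length w' + 1 = cs.length w := by
      rw [hw']
      rcases cs.length_simple_mul w j with h | h <;> omega
    have hjw' : cs.length w' < cs.length (cs.simple j * w') := by rw [← hw]; omega
    have A2 := ih (cs.length w') (by omega) w' j rfl hjw'
    have hsym : ∀ (u : W) (x : Fin (2 * (m + 2) + 1 + 1)), (f u)⁻¹ (Fin.rev x) = Fin.rev ((f u)⁻¹ x) := by
      intro u x
      rw [Equiv.Perm.inv_eq_iff_eq, symP_fD cs f hf u]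
      exact congrArg Fin.rev ((f u).apply_symm_apply x).symm
    have e0 : ∀ x, (f w)⁻¹ x = (f w')⁻¹ (swD j x) := by
      intro x
      rw [hw]
      exact PLD_inv cs f hf j w' x
    rw [e0, e0]
    by_cases hc : cs.length w' < cs.length (cs.simple i * w')
    · have A1 := ih (cs.length w') (by omega) w' i rfl hc
      by_cases nb : PLDnb m i j
      · exact (PLD_fin (fun x => (f w')⁻¹ x) i j nb A1 A2).1
      · exact PLD_fin2 (fun x => (f w')⁻¹ x) (hsym w') i j hijv nb A1
    · obtain ⟨v, hv⟩ : ∃ v, v = cs.simple i * w' := ⟨_, rfl⟩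
      have hw'v : w' = cs.simple i * v := by rw [hv, cs.simple_mul_simple_cancel_left]
      have hlv : cs.length v + 1 = cs.length w' := by
        rw [hv]
        rcases cs.length_simple_mul w' i with h | h <;> omega
      by_cases nb : PLDnb m i j
      · have hiv : cs.length v < cs.length (cs.simple i * v) := by rw [← hw'v]; omega
        have B1 := ih (cs.length v) (by omega) v i rfl hiv
        have e1 : ∀ x, (f w')⁻¹ x = (f v)⁻¹ (swD i x) := by
          intro x
          rw [hw'v]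
          exact PLD_inv cs f hf i v x
        by_cases hjv : cs.length v < cs.length (cs.simple j * v)
        · have B2 := ih (cs.length v) (by omega) v j rfl hjv
          rw [e1, e1]
          exact (PLD_fin (fun x => (f v)⁻¹ x) i j nb B1 B2).2
        · exfalso
          obtain ⟨t, ht⟩ : ∃ t, t = cs.simple j * v := ⟨_, rfl⟩
          have hvt : v = cs.simple j * t := by rw [ht, cs.simple_mul_simple_cancel_left]
          have hlt : cs.length t + 1 = cs.length v := by
            rw [ht]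
            rcases cs.length_simple_mul v j with h | h <;> omega
          have h3 : cs.simple i * w = cs.simple j * (cs.simple i * t) := by
            calc cs.simple i * w = cs.simple i * cs.simple j * cs.simple i * (cs.simple j * t) := by
                  rw [hw, hw'v, hvt]; simp only [mul_assoc]
              _ = cs.simple j * cs.simple i * cs.simple j * (cs.simple j * t) := by
                  rw [PLD_braid3 cs nb]
              _ = cs.simple j * (cs.simple i * (cs.simple j * (cs.simple j * t))) := by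
                  simp only [mul_assoc]
              _ = _ := by rw [cs.simple_mul_simple_cancel_left]
          have h4 : cs.length (cs.simple i * w) ≤ cs.length t + 2 := by
            rw [h3]
            rcases cs.length_simple_mul (cs.simple i * t) j with h | h <;>
              rcases cs.length_simple_mul t i with h' | h' <;> omega
          omega
      · exfalso
        have h3 : cs.simple i * w = cs.simple j * v := by
          calc cs.simple i * w = cs.simple i * cs.simple j * (cs.simple i * v) := by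
                rw [hw, hw'v]; simp only [mul_assoc]
            _ = cs.simple j * cs.simple i * (cs.simple i * v) := by rw [PLD_comm cs hij nb]
            _ = cs.simple j * (cs.simple i * (cs.simple i * v)) := by rw [mul_assoc]
            _ = _ := by rw [cs.simple_mul_simple_cancel_left]
        have h4 : cs.length (cs.simple i * w) ≤ cs.length v + 1 := by
          rw [h3]
          rcases cs.length_simple_mul v j with h | h <;> omega
        omega

theorem permD_len {m : ℕ} {W : Type*} [Group W] (cs : CoxeterSystem (typeD m) W)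
    (f : W →* Equiv.Perm (Fin (2 * (m + 2) + 1 + 1))) (hf : ∀ i : Fin (m + 2 + 1), f (cs.simple i) = swD i)
    (i : Fin (m + 2 + 1)) (w : W) :
    cs.length w < cs.length (cs.simple i * w) ↔ (f w)⁻¹ (pD i) < (f w)⁻¹ (qD i) := by
  refine ⟨PLD_A cs f hf _ w i rfl, fun h => ?_⟩
  by_contra hcon
  have h1 : cs.length (cs.simple i * w) < cs.length (cs.simple i * (cs.simple i * w)) := by
    rw [cs.simple_mul_simple_cancel_left]
    rcases cs.length_simple_mul w i with h' | h' <;> omega
  have h2 := PLD_A cs f hf _ _ i rfl h1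
  have hi := i.2
  have a1 : swD i (pD i) = qD i :=
    Fin.ext (by rw [PLD_val, PLD_P, PLD_Q]; split_ifs <;> omega)
  have a2 : swD i (qD i) = pD i :=
    Fin.ext (by rw [PLD_val, PLD_P, PLD_Q]; split_ifs <;> omega)
  rw [PLD_inv cs f hf, PLD_inv cs f hf, a1, a2] at h2
  exact lt_asymm h h2

theorem permD_injective {m : ℕ} {W : Type*} [Group W] (cs : CoxeterSystem (typeD m) W)
    (f : W →* Equiv.Perm (Fin (2 * (m + 2) + 1 + 1)))
    (hf : ∀ i : Fin (m + 2 + 1), f (cs.simple i) = swD i) : Function.Injective f := by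
  rw [injective_iff_map_eq_one]
  intro w hw
  by_contra h1
  obtain ⟨j, hj⟩ := cs.exists_leftDescent_of_ne_one h1
  have hj' : cs.length (cs.simple j * w) < cs.length w := hj
  have h2 : ¬ cs.length w < cs.length (cs.simple j * w) := by omega
  rw [permD_len cs f hf, hw, inv_one] at h2
  exact h2 (pD_lt_qD j)

end Pool.Agent.Lib.MP_f146a9_al.DV
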