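import Pool.Agent.Lib.MP_f146a9_al.DVD.StepO

/-! MP_f146a9_al. Type D: the generators and the cells. -/

namespace Pool.Agent.Lib.MP_f146a9_al.DV

private theorem tt_inv (m : ℕ) : (tt m)⁻¹ = tt m := Equiv.swap_inv _ _

private theorem tt_sq (m : ℕ) : tt m * tt m = 1 := Equiv.swap_mul_self _ _

private theorem pm_tt_sq (m : ℕ) : (pm (tt m) : Mat (2 * m + 1)) * pm (tt m) = 1 := by
  rw [← pm_mul, tt_sq, pm_one]

private theorem tt_lt {m : ℕ} {a c : Fin (2 * m + 1 + 1)} (h : c < a)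
    (hn : ¬ (a = (na (Fin.last m)).succ ∧ c = (na (Fin.last m)).castSucc)) : tt m c < tt m a := by
  have v1 : ((na (Fin.last m)).castSucc : Fin (2 * m + 1 + 1)).val = m := rfl
  have v2 : ((na (Fin.last m)).succ : Fin (2 * m + 1 + 1)).val = m + 1 := rfl
  have hd : ∀ x : Fin (2 * m + 1 + 1), (tt m x).val =
      if x.val = m then m + 1 else if x.val = m + 1 then m else x.val := by
    intro x
    rw [tt, Equiv.swap_apply_def]
    simp only [Fin.ext_iff, v1, v2]
    split_ifs <;> simp_all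
  rw [Fin.ext_iff, Fin.ext_iff, v1, v2] at hn
  rw [Fin.lt_def] at h ⊢
  rw [hd, hd]
  split_ifs <;> omega

theorem twist {m : ℕ} {x : Mat (2 * m + 1)} {w : Equiv.Perm (Fin (2 * m + 1 + 1))} (h : CellO x w) :
    CellO (pm (tt m) * x) (tt m * w) := by
  obtain ⟨b, c, hb, hc, hx⟩ := h
  have ho : (pm (tt m) * b * pm (tt m)) * OO m * (pm (tt m) * b * pm (tt m)).transpose = OO m :=
    ort_mul (ort_mul (pm_ort (symP_tt m)) hb.2) (pm_ort (symP_tt m))
  refine ⟨pm (tt m) * b * pm (tt m), c, ⟨⟨?_, ort_unit ho⟩, ho⟩, hc, ?_⟩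
  · intro a d had
    rw [mul_pm_apply, pm_mul_apply, tt_inv]
    by_cases hn : a = (na (Fin.last m)).succ ∧ d = (na (Fin.last m)).castSucc
    · rw [hn.1, hn.2, tt, Equiv.swap_apply_right, Equiv.swap_apply_left]
      exact uto_middle hb
    · exact hb.1.1 _ _ (tt_lt had hn)
  · rw [hx, pm_mul, mul_assoc (pm (tt m) * b) (pm (tt m)) (pm (tt m) * pm w), ← mul_assoc (pm (tt m)) (pm (tt m)) (pm w),
      pm_tt_sq, one_mul]
    simp only [mul_assoc]

private theorem pl_ne (m : ℕ) : pl m ≠ Fin.last (m + 2) := by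
  intro h
  have h1 := congrArg Fin.val h
  change m + 1 = m + 2 at h1
  omega

private theorem tw_inv {m : ℕ} (w : Equiv.Perm (Fin (2 * m + 1 + 1))) (p : Fin (2 * m + 1 + 1)) :
    (tt m * w)⁻¹ p = w⁻¹ (tt m p) := by
  rw [mul_inv_rev, tt_inv]
  rfl

theorem stepD_up {m : ℕ} (i : Fin (m + 2 + 1)) {k : ℚ} (hk : k ≠ 0) {x : Mat (2 * (m + 2) + 1)}
    {w : Equiv.Perm (Fin (2 * (m + 2) + 1 + 1))} (h : CellO x w) (hs : SymP w)
    (hw : w⁻¹ (pD i) < w⁻¹ (qD i)) : CellO (genD i k * x) (swD i * w) := by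
  by_cases hi : i = Fin.last (m + 2)
  · rw [pD, qD, if_pos hi, if_pos hi, ← tw_inv, ← tw_inv] at hw
    have h2 := twist (stepO_up (pl m) (pl_ne m) hk (twist h) (symP_mul (symP_tt _) hs) hw)
    rw [genD, swD, if_pos hi, if_pos hi]
    simp only [mul_assoc] at h2 ⊢
    exact h2
  · rw [pD, qD, if_neg hi, if_neg hi] at hw
    rw [genD, swD, if_neg hi, if_neg hi]
    exact stepO_up i hi hk h hs hw

theorem stepD_down {m : ℕ} (i : Fin (m + 2 + 1)) (k : ℚ) {x : Mat (2 * (m + 2) + 1)}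
    {w : Equiv.Perm (Fin (2 * (m + 2) + 1 + 1))} (h : CellO x w) (hs : SymP w)
    (hw : w⁻¹ (qD i) < w⁻¹ (pD i)) : CellO (genD i k * x) w ∨ CellO (genD i k * x) (swD i * w) := by
  by_cases hi : i = Fin.last (m + 2)
  · rw [pD, qD, if_pos hi, if_pos hi, ← tw_inv, ← tw_inv] at hw
    rw [genD, swD, if_pos hi, if_pos hi]
    rcases stepO_down (pl m) (pl_ne m) k (twist h) (symP_mul (symP_tt _) hs) hw with h1 | h1
    · left
      have h2 := twist h1
      rw [← mul_assoc (tt (m + 2)) (tt (m + 2)) w, tt_sq, one_mul] at h2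
      simp only [mul_assoc] at h2 ⊢
      exact h2
    · right
      have h2 := twist h1
      simp only [mul_assoc] at h2 ⊢
      exact h2
  · rw [pD, qD, if_neg hi, if_neg hi] at hw
    rw [genD, swD, if_neg hi, if_neg hi]
    exact stepO_down i hi k h hs hw

end Pool.Agent.Lib.MP_f146a9_al.DV
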