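import Pool.Agent.Lib.MP_f146a9_al.DVB.Annular
import Pool.Agent.Lib.MP_f146a9_al.DVD.StepD
import Pool.Agent.Lib.MP_f146a9_al.DVD.HomD
import Pool.Agent.Lib.MP_f146a9_al.DVD.PermLD

/-!
MP_f146a9_al. The cells of the Artin groups of types A, B and D.
-/

namespace Pool.Agent.Lib.MP_f146a9_al.DV

open CoxeterSystem

theorem exists_cellsD {m : ℕ} {W : Type*} [Group W] (cs : CoxeterSystem (typeD m) W) :
    ∃ cell : ArtinGroup (typeD m) → W → Prop, IsCells cs cell := by
  obtain ⟨f, hf⟩ := exists_permD cs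
  obtain ⟨ρ, hρ⟩ := exists_homD m
  have hlen := permD_len cs f hf
  have hinj := permD_injective cs f hf
  refine ⟨fun g w => CellO ((ρ g : (Mat (2 * (m + 2) + 1))ˣ) : Mat (2 * (m + 2) + 1)) (f w), ?_, ?_, ?_, ?_⟩
  · change CellO ((ρ 1 : (Mat (2 * (m + 2) + 1))ˣ) : Mat (2 * (m + 2) + 1)) (f 1)
    rw [map_one, map_one, Units.val_one]
    exact ⟨1, 1, uto_one, uto_one, by rw [pm_one, one_mul, one_mul]⟩
  · intro g w w' h h'
    exact hinj (cell_unique (cellO_cell h) (cellO_cell h'))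
  · intro i k g w hk h hw
    have h1 := stepD_up i (k := (k : ℚ)) (by exact_mod_cast hk) h (symP_fD cs f hf w) ((hlen i w).1 hw)
    change CellO ((ρ (_ * g) : (Mat (2 * (m + 2) + 1))ˣ) : Mat (2 * (m + 2) + 1)) (f (_ * w))
    rw [map_mul, map_mul, Units.val_mul, hρ, hf]
    exact h1
  · intro i k g w h hw
    have h2 : (f w)⁻¹ (qD i) < (f w)⁻¹ (pD i) := by
      have h3 : ¬ (f w)⁻¹ (pD i) < (f w)⁻¹ (qD i) := by
        rw [← hlen i w]
        omega
      rcases lt_or_gt_of_ne (a := (f w)⁻¹ (pD i)) (b := (f w)⁻¹ (qD i)) (by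
        intro h4
        have h5 := (f w)⁻¹.injective h4
        exact absurd h5 (pD_lt_qD i).ne) with h4 | h4
      · exact absurd h4 h3
      · exact h4
    rcases stepD_down i (k : ℚ) h (symP_fD cs f hf w) h2 with h1 | h1
    · left
      change CellO ((ρ (_ * g) : (Mat (2 * (m + 2) + 1))ˣ) : Mat (2 * (m + 2) + 1)) (f w)
      rw [map_mul, Units.val_mul, hρ]
      exact h1
    · right
      change CellO ((ρ (_ * g) : (Mat (2 * (m + 2) + 1))ˣ) : Mat (2 * (m + 2) + 1)) (f (_ * w))
      rw [map_mul, map_mul, Units.val_mul, hρ, hf]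
      exact h1

/-- the Coxeter matrices of the classical types -/
inductive IsClassical : {n : ℕ} → CoxeterMatrix (Fin n) → Prop
  | A (n : ℕ) : IsClassical (CoxeterMatrix.A n)
  | B (n : ℕ) : IsClassical (CoxeterMatrix.B n)
  | D (m : ℕ) : IsClassical (typeD m)

/-- the classical types -/
theorem exists_cells_classical {n : ℕ} {M : CoxeterMatrix (Fin n)} (hM : IsClassical M) {W : Type*}
    [Group W] (cs : CoxeterSystem M W) : ∃ cell : ArtinGroup M → W → Prop, IsCells cs cell := by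
  cases hM with
  | A n => exact exists_cells cs
  | B n => exact exists_cellsAB _ (Or.inr rfl) cs
  | D m => exact exists_cellsD cs

end Pool.Agent.Lib.MP_f146a9_al.DV
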