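import Pool.Agent.Lib.MP_f146a9_al.DVB.Defs

/-!
MP_f146a9_al. Type D: matrices of the split orthogonal group.
-/

namespace Pool.Agent.Lib.MP_f146a9_al.DV

/-- the transvection 1 + k (e_i - e_(i+1)) (e_i + e_(i+1)) -/
def gen2 {n : ℕ} (i : Fin n) (k : ℚ) : Mat n := 1 + k • Matrix.vecMulVec (fv i) (uv i)

/-- an orthogonal generator of type A inside type D -/
def genO {m : ℕ} (i : Fin (m + 1)) (k : ℚ) : Mat (2 * m + 1) :=
  gen (na i) k * gen2 (Fin.rev (na i)) k

/-- its permutation -/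
def swO {m : ℕ} (i : Fin (m + 1)) : Equiv.Perm (Fin (2 * m + 1 + 1)) :=
  Equiv.swap (na i).castSucc (na i).succ * Equiv.swap (Fin.rev (na i)).castSucc (Fin.rev (na i)).succ

/-- the exchange of the two middle coordinates -/
def tt (m : ℕ) : Equiv.Perm (Fin (2 * m + 1 + 1)) :=
  Equiv.swap (na (Fin.last m)).castSucc (na (Fin.last m)).succ

/-- the symmetric form -/
def OO (m : ℕ) : Mat (2 * m + 1) := pm Fin.revPerm

/-- orthogonal upper triangular matrices -/
def UTO {m : ℕ} (b : Mat (2 * m + 1)) : Prop := UT b ∧ b * OO m * b.transpose = OO m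

/-- the cell of a permutation in the orthogonal group -/
def CellO {m : ℕ} (x : Mat (2 * m + 1)) (w : Equiv.Perm (Fin (2 * m + 1 + 1))) : Prop :=
  ∃ b c, UTO b ∧ UTO c ∧ x = b * pm w * c

/-- the node before the last one -/
def pl (m : ℕ) : Fin (m + 2 + 1) := ⟨m + 1, by omega⟩

/-- the generators of type D -/
def genD {m : ℕ} (i : Fin (m + 2 + 1)) (k : ℚ) : Mat (2 * (m + 2) + 1) :=
  if i = Fin.last (m + 2) then pm (tt (m + 2)) * genO (pl m) k * pm (tt (m + 2)) else genO i k

/-- their permutations -/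
def swD {m : ℕ} (i : Fin (m + 2 + 1)) : Equiv.Perm (Fin (2 * (m + 2) + 1 + 1)) :=
  if i = Fin.last (m + 2) then tt (m + 2) * swO (pl m) * tt (m + 2) else swO i

/-- the first point of the root of the generator -/
def pD {m : ℕ} (i : Fin (m + 2 + 1)) : Fin (2 * (m + 2) + 1 + 1) :=
  if i = Fin.last (m + 2) then tt (m + 2) (na (pl m)).castSucc else (na i).castSucc

/-- the second point of the root of the generator -/
def qD {m : ℕ} (i : Fin (m + 2 + 1)) : Fin (2 * (m + 2) + 1 + 1) :=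
  if i = Fin.last (m + 2) then tt (m + 2) (na (pl m)).succ else (na i).succ

/-- The Coxeter matrix of type `D_n`, `n = m + 3`: the nodes `0, ..., n - 2` are a chain, and the node `n - 1`
is joined to the node `n - 3` only -/
def typeD (m : ℕ) : CoxeterMatrix (Fin (m + 2 + 1)) where
  M := Matrix.of fun i j : Fin (m + 2 + 1) =>
    if i = j then 1
      else if ((i : ℕ) = m + 2 ∧ (j : ℕ) = m) ∨ ((j : ℕ) = m + 2 ∧ (i : ℕ) = m) then 3
        else if ((i : ℕ) = m + 2 ∧ (j : ℕ) = m + 1) ∨ ((j : ℕ) = m + 2 ∧ (i : ℕ) = m + 1) then 2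
          else if (j : ℕ) + 1 = i ∨ (i : ℕ) + 1 = j then 3 else 2
  isSymm := by unfold Matrix.IsSymm; aesop
  diagonal := by simp
  off_diagonal := by aesop

end Pool.Agent.Lib.MP_f146a9_al.DV
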