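import Pool.Agent.Lib.MP_f146a9_al.DVD.Defs
import Pool.Agent.Lib.MP_f146a9_al.DV.Uniq
import Pool.Agent.Lib.MP_f146a9_al.DV.Rel

/-! MP_f146a9_al. Type D: matrices and permutations of the split orthogonal group. -/

namespace Pool.Agent.Lib.MP_f146a9_al.DV

private theorem OO_apply (m : ℕ) (a b : Fin (2 * m + 1 + 1)) :
    OO m a b = if a = Fin.rev b then 1 else 0 := rfl

private theorem mul_OO (m : ℕ) (x : Mat (2 * m + 1)) (a b : Fin (2 * m + 1 + 1)) :
    (x * OO m) a b = x a (Fin.rev b) := by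
  rw [OO, mul_pm_apply]
  rfl

private theorem OO_mul (m : ℕ) (x : Mat (2 * m + 1)) (a b : Fin (2 * m + 1 + 1)) :
    (OO m * x) a b = x (Fin.rev a) b := by
  rw [OO, pm_mul_apply]
  rfl

theorem OO_sq (m : ℕ) : OO m * OO m = 1 := by
  ext a b
  rw [mul_OO, OO_apply, Fin.rev_rev, Matrix.one_apply]

theorem OO_transpose (m : ℕ) : (OO m).transpose = OO m := by
  ext a b
  rw [Matrix.transpose_apply, OO_apply, OO_apply]
  congr 1
  exact propext ⟨fun h => by rw [h, Fin.rev_rev], fun h => by rw [h, Fin.rev_rev]⟩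

theorem uto_one {m : ℕ} : UTO (1 : Mat (2 * m + 1)) :=
  ⟨ut_one, by rw [Matrix.transpose_one, one_mul, mul_one]⟩

private theorem ort_mul' {m : ℕ} {x y : Mat (2 * m + 1)} (hx : x * OO m * x.transpose = OO m)
    (hy : y * OO m * y.transpose = OO m) : (x * y) * OO m * (x * y).transpose = OO m := by
  rw [Matrix.transpose_mul]
  calc x * y * OO m * (y.transpose * x.transpose) = x * (y * OO m * y.transpose) * x.transpose := by
        simp only [mul_assoc]
    _ = OO m := by rw [hy, hx]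

theorem uto_mul {m : ℕ} {b c : Mat (2 * m + 1)} (hb : UTO b) (hc : UTO c) : UTO (b * c) :=
  ⟨ut_mul hb.1 hc.1, ort_mul' hb.2 hc.2⟩

theorem uto_inv {m : ℕ} {b : Mat (2 * m + 1)} (hb : UTO b) :
    ∃ c : Mat (2 * m + 1), UTO c ∧ b * c = 1 ∧ c * b = 1 := by
  obtain ⟨c, hc, h1, h2⟩ := ut_inv hb.1
  refine ⟨c, ⟨hc, ?_⟩, h1, h2⟩
  calc c * OO m * c.transpose = c * (b * OO m * b.transpose) * c.transpose := by rw [hb.2]
    _ = (c * b) * OO m * (c * b).transpose := by
        rw [Matrix.transpose_mul]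
        simp only [mul_assoc]
    _ = OO m := by rw [h2, Matrix.transpose_one, one_mul, mul_one]

theorem ort_mul {m : ℕ} {x y : Mat (2 * m + 1)} (hx : x * OO m * x.transpose = OO m)
    (hy : y * OO m * y.transpose = OO m) : (x * y) * OO m * (x * y).transpose = OO m :=
  ort_mul' hx hy

private theorem ort_right {m : ℕ} {x : Mat (2 * m + 1)} (hx : x * OO m * x.transpose = OO m) :
    x * (OO m * x.transpose * OO m) = 1 := by
  rw [← mul_assoc, ← mul_assoc, hx, OO_sq]

theorem ort_inv {m : ℕ} {x : Mat (2 * m + 1)} (hx : x * OO m * x.transpose = OO m)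
    (a c : Fin (2 * m + 1 + 1)) : x⁻¹ a c = x (Fin.rev c) (Fin.rev a) := by
  rw [Matrix.inv_eq_right_inv (ort_right hx), mul_OO, OO_mul, Matrix.transpose_apply]

theorem ort_unit {m : ℕ} {x : Mat (2 * m + 1)} (hx : x * OO m * x.transpose = OO m) : IsUnit x.det :=
  Matrix.isUnit_det_of_right_inverse (ort_right hx)

private theorem pm_transpose {n : ℕ} (w : Equiv.Perm (Fin (n + 1))) :
    (pm w).transpose = pm w⁻¹ := by
  ext a b
  change (if b = w a then (1 : ℚ) else 0) = if a = w⁻¹ b then 1 else 0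
  congr 1
  exact propext ⟨fun h => by rw [h]; exact (w.symm_apply_apply a).symm,
    fun h => by rw [h]; exact (w.apply_symm_apply b).symm⟩

theorem pm_ort {m : ℕ} {w : Equiv.Perm (Fin (2 * m + 1 + 1))} (hs : SymP w) :
    pm w * OO m * (pm w).transpose = OO m := by
  rw [pm_transpose, OO, ← pm_mul, ← pm_mul]
  congr 1
  ext x
  change ((w (Fin.rev (w⁻¹ x)) : Fin (2 * m + 1 + 1)) : ℕ) = (Fin.rev x : Fin (2 * m + 1 + 1))
  rw [hs]
  have h : w (w⁻¹ x) = x := w.apply_symm_apply x
  rw [h]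

theorem symP_mul {m : ℕ} {v w : Equiv.Perm (Fin (2 * m + 1 + 1))} (hv : SymP v) (hw : SymP w) :
    SymP (v * w) := by
  intro a
  rw [Equiv.Perm.mul_apply, Equiv.Perm.mul_apply, hw, hv]

theorem symP_tt (m : ℕ) : SymP (tt m) := by
  intro a
  have ha := a.2
  have h1 : (((na (Fin.last m)).castSucc : Fin (2 * m + 1 + 1)) : ℕ) = m := rfl
  have h2 : (((na (Fin.last m)).succ : Fin (2 * m + 1 + 1)) : ℕ) = m + 1 := rfl
  apply Fin.ext
  rw [tt, Equiv.swap_apply_def, Equiv.swap_apply_def]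
  split_ifs <;> simp only [Fin.ext_iff, Fin.val_rev, h1, h2] at * <;> omega

theorem symP_swO {m : ℕ} (i : Fin (m + 1)) (hi : i ≠ Fin.last m) : SymP (swO i) := by
  intro a
  have ha := a.2
  have hi' : (i : ℕ) < m := by
    have h1 := i.2
    have h2 : (i : ℕ) ≠ m := fun h => hi (Fin.ext h)
    omega
  have h1 : (((na i).castSucc : Fin (2 * m + 1 + 1)) : ℕ) = i := rfl
  have h2 : (((na i).succ : Fin (2 * m + 1 + 1)) : ℕ) = i + 1 := rfl
  have h3 : (((Fin.rev (na i)).castSucc : Fin (2 * m + 1 + 1)) : ℕ) = 2 * m - i := by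
    rw [Fin.val_castSucc, Fin.val_rev]
    change 2 * m + 1 - ((i : ℕ) + 1) = 2 * m - i
    omega
  have h4 : (((Fin.rev (na i)).succ : Fin (2 * m + 1 + 1)) : ℕ) = 2 * m - i + 1 := by
    rw [Fin.val_succ, Fin.val_rev]
    change 2 * m + 1 - ((i : ℕ) + 1) + 1 = 2 * m - i + 1
    omega
  apply Fin.ext
  rw [swO, Equiv.Perm.mul_apply, Equiv.Perm.mul_apply]
  have key : ∀ x : Fin (2 * m + 1 + 1),
      ((Equiv.swap (na i).castSucc (na i).succ
        (Equiv.swap (Fin.rev (na i)).castSucc (Fin.rev (na i)).succ x) : Fin (2 * m + 1 + 1)) : ℕ) =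
      (if (x : ℕ) = (i : ℕ) then (i : ℕ) + 1 else if (x : ℕ) = (i : ℕ) + 1 then (i : ℕ) else
        if (x : ℕ) = 2 * m - (i : ℕ) then 2 * m - (i : ℕ) + 1 else
        if (x : ℕ) = 2 * m - (i : ℕ) + 1 then 2 * m - (i : ℕ) else (x : ℕ)) := by
    intro x
    have hx := x.2
    rw [Equiv.swap_apply_def, Equiv.swap_apply_def]
    split_ifs <;> simp only [Fin.ext_iff, h1, h2, h3, h4] at * <;> omega
  rw [key, Fin.val_rev, Fin.val_rev, key]
  split_ifs <;> omega

private theorem dotO_uv {n : ℕ} (v : Fin (n + 1) → ℚ) (j : Fin n) :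
    v ⬝ᵥ uv j = v j.castSucc + v j.succ := by
  have hne : j.castSucc ≠ j.succ := (Fin.castSucc_lt_succ).ne
  have h1 : uv j = Pi.single j.castSucc 1 + Pi.single j.succ 1 := by
    funext a
    simp only [uv, Pi.add_apply, Pi.single_apply]
    by_cases ha : a = j.castSucc
    · subst ha
      simp [hne]
    · simp [ha]
  rw [h1, dotProduct_add, dotProduct_single, dotProduct_single, mul_one, mul_one]

private theorem dotO_fv {n : ℕ} (v : Fin (n + 1) → ℚ) (j : Fin n) :
    v ⬝ᵥ fv j = v j.castSucc - v j.succ := by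
  have hne : j.castSucc ≠ j.succ := (Fin.castSucc_lt_succ).ne
  have h1 : fv j = Pi.single j.castSucc 1 - Pi.single j.succ 1 := by
    funext a
    simp only [fv, Pi.sub_apply, Pi.single_apply]
    by_cases ha : a = j.castSucc
    · subst ha
      simp [hne]
    · by_cases hb : a = j.succ
      · simp [hb, hne.symm]
      · simp [ha, hb]
  rw [h1, dotProduct_sub, dotProduct_single, dotProduct_single, mul_one, mul_one]

private theorem uv_fv {n : ℕ} (i : Fin n) : uv i ⬝ᵥ fv i = 0 := by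
  have hne : i.succ ≠ i.castSucc := (Fin.castSucc_lt_succ).ne'
  rw [dotO_fv]
  simp [uv, hne]

theorem gen2_mul {n : ℕ} (i : Fin n) (k l : ℚ) : gen2 i k * gen2 i l = gen2 i (k + l) := by
  have h : Matrix.vecMulVec (fv i) (uv i) * Matrix.vecMulVec (fv i) (uv i) = 0 := by
    rw [Matrix.vecMulVec_mul_vecMulVec, Matrix.vecMulVec_smul, uv_fv, zero_smul]
  rw [gen2, gen2, gen2]
  simp only [add_mul, mul_add, one_mul, mul_one, Matrix.smul_mul, Matrix.mul_smul, h, smul_zero,
    add_zero, add_smul]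
  abel

theorem gen_gen2_comm {m : ℕ} (i : Fin (m + 1)) (hi : i ≠ Fin.last m) (k l : ℚ) :
    gen (na i) k * gen2 (Fin.rev (na i)) l = gen2 (Fin.rev (na i)) l * gen (na i) k := by
  have hi' : (i : ℕ) < m := by
    have h1 := i.2
    have h2 : (i : ℕ) ≠ m := fun h => hi (Fin.ext h)
    omega
  have hn : ((na i : Fin (2 * m + 1)) : ℕ) = i := rfl
  have hr : ((Fin.rev (na i) : Fin (2 * m + 1)) : ℕ) = 2 * m - i := by
    rw [Fin.val_rev, hn]
    omega
  have e1 : Matrix.vecMulVec (uv (na i)) (fv (na i)) *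
      Matrix.vecMulVec (fv (Fin.rev (na i))) (uv (Fin.rev (na i))) = 0 := by
    rw [Matrix.vecMulVec_mul_vecMulVec, Matrix.vecMulVec_smul, dotO_fv]
    simp only [fv, Fin.ext_iff, Fin.val_castSucc, Fin.val_succ, hn, hr]
    rw [if_neg (by omega), if_neg (by omega), if_neg (by omega), if_neg (by omega), sub_zero,
      zero_smul]
  have e2 : Matrix.vecMulVec (fv (Fin.rev (na i))) (uv (Fin.rev (na i))) *
      Matrix.vecMulVec (uv (na i)) (fv (na i)) = 0 := by
    rw [Matrix.vecMulVec_mul_vecMulVec, Matrix.vecMulVec_smul, dotO_uv]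
    simp only [uv, Fin.ext_iff, Fin.val_castSucc, Fin.val_succ, hn, hr]
    rw [if_neg (by omega), if_neg (by omega), if_neg (by omega), if_neg (by omega), add_zero,
      zero_smul]
  rw [gen, gen2]
  simp only [add_mul, mul_add, one_mul, mul_one, Matrix.smul_mul, Matrix.mul_smul, e1, e2,
    smul_zero, add_zero]
  abel

theorem genO_mul {m : ℕ} (i : Fin (m + 1)) (hi : i ≠ Fin.last m) (k l : ℚ) :
    genO i k * genO i l = genO i (k + l) := by
  rw [genO, genO, genO]
  calc gen (na i) k * gen2 (Fin.rev (na i)) k * (gen (na i) l * gen2 (Fin.rev (na i)) l)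
      = gen (na i) k * (gen2 (Fin.rev (na i)) k * gen (na i) l) * gen2 (Fin.rev (na i)) l := by
        simp only [mul_assoc]
    _ = gen (na i) k * (gen (na i) l * gen2 (Fin.rev (na i)) k) * gen2 (Fin.rev (na i)) l := by
        rw [gen_gen2_comm i hi]
    _ = (gen (na i) k * gen (na i) l) * (gen2 (Fin.rev (na i)) k * gen2 (Fin.rev (na i)) l) := by
        simp only [mul_assoc]
    _ = gen (na i) (k + l) * gen2 (Fin.rev (na i)) (k + l) := by rw [gen_mul, gen2_mul]

private theorem OO_mulVec {m : ℕ} (v : Fin (2 * m + 1 + 1) → ℚ) (a : Fin (2 * m + 1 + 1)) :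
    Matrix.mulVec (OO m) v a = v (Fin.rev a) := by
  rw [Matrix.mulVec, dotProduct, Finset.sum_eq_single (Fin.rev a)]
  · simp [OO_apply]
  · intro b _ hb
    have : a ≠ Fin.rev b := by
      rintro rfl
      exact hb (Fin.rev_rev b).symm
    simp [OO_apply, this]
  · intro h
    exact absurd (Finset.mem_univ _) h

private theorem OO_vecMul {m : ℕ} (v : Fin (2 * m + 1 + 1) → ℚ) (b : Fin (2 * m + 1 + 1)) :
    Matrix.vecMul v (OO m) b = v (Fin.rev b) := by
  rw [Matrix.vecMul, dotProduct, Finset.sum_eq_single (Fin.rev b)]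
  · simp [OO_apply]
  · intro a _ ha
    simp [OO_apply, ha]
  · intro h
    exact absurd (Finset.mem_univ _) h

private theorem OO_fv {m : ℕ} (j : Fin (2 * m + 1)) :
    Matrix.mulVec (OO m) (fv j) = -fv (Fin.rev j) := by
  funext a
  rw [OO_mulVec, Pi.neg_apply]
  have hj := j.2
  have ha := a.2
  have hrj : ((Fin.rev j : Fin (2 * m + 1)) : ℕ) = 2 * m - j := by
    rw [Fin.val_rev]; omega
  have hra : ((Fin.rev a : Fin (2 * m + 1 + 1)) : ℕ) = 2 * m + 1 - a := by
    rw [Fin.val_rev]; omega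
  simp only [fv, Fin.ext_iff, Fin.val_castSucc, Fin.val_succ, hrj, hra]
  split_ifs <;> first | omega | norm_num

private theorem uv_OO {m : ℕ} (j : Fin (2 * m + 1)) :
    Matrix.vecMul (uv (Fin.rev j)) (OO m) = uv j := by
  funext b
  rw [OO_vecMul]
  have hj := j.2
  have hb := b.2
  have hrj : ((Fin.rev j : Fin (2 * m + 1)) : ℕ) = 2 * m - j := by
    rw [Fin.val_rev]; omega
  have hrb : ((Fin.rev b : Fin (2 * m + 1 + 1)) : ℕ) = 2 * m + 1 - b := by
    rw [Fin.val_rev]; omega
  simp only [uv, Fin.ext_iff, Fin.val_castSucc, Fin.val_succ, hrj, hrb]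
  split_ifs <;> first | omega | rfl

private theorem gen2_one {m : ℕ} (j : Fin (2 * m + 1)) (k : ℚ) :
    gen2 (Fin.rev j) k * OO m * (gen j k).transpose = OO m := by
  have hT : (gen j k).transpose = 1 + k • Matrix.vecMulVec (fv j) (uv j) := by
    rw [gen, Matrix.transpose_add, Matrix.transpose_one, Matrix.transpose_smul,
      Matrix.transpose_vecMulVec]
  have e1 : Matrix.vecMulVec (fv (Fin.rev j)) (uv (Fin.rev j)) * OO m =
      Matrix.vecMulVec (fv (Fin.rev j)) (uv j) := by
    rw [Matrix.vecMulVec_mul, uv_OO]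
  have e2 : OO m * Matrix.vecMulVec (fv j) (uv j) =
      -Matrix.vecMulVec (fv (Fin.rev j)) (uv j) := by
    rw [Matrix.mul_vecMulVec, OO_fv, Matrix.neg_vecMulVec]
  have e3 : Matrix.vecMulVec (fv (Fin.rev j)) (uv j) * Matrix.vecMulVec (fv j) (uv j) = 0 := by
    rw [Matrix.vecMulVec_mul_vecMulVec, Matrix.vecMulVec_smul, uv_fv, zero_smul]
  rw [hT, gen2]
  simp only [add_mul, mul_add, one_mul, mul_one, Matrix.smul_mul, Matrix.mul_smul, e1, e2, e3,
    smul_zero, add_zero, smul_neg]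
  abel

private theorem gen2_two {m : ℕ} (j : Fin (2 * m + 1)) (k : ℚ) :
    gen j k * OO m * (gen2 (Fin.rev j) k).transpose = OO m := by
  have h := congrArg Matrix.transpose (gen2_one j k)
  rw [Matrix.transpose_mul, Matrix.transpose_mul, Matrix.transpose_transpose, OO_transpose,
    ← mul_assoc] at h
  exact h

theorem genO_ort {m : ℕ} (i : Fin (m + 1)) (hi : i ≠ Fin.last m) (k : ℚ) :
    genO i k * OO m * (genO i k).transpose = OO m := by
  have hc := gen_gen2_comm i hi k k
  have h1 := gen2_one (na i) k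
  have h2 := gen2_two (na i) k
  rw [genO, Matrix.transpose_mul]
  calc gen (na i) k * gen2 (Fin.rev (na i)) k * OO m *
        ((gen2 (Fin.rev (na i)) k).transpose * (gen (na i) k).transpose)
      = gen2 (Fin.rev (na i)) k * (gen (na i) k * OO m * (gen2 (Fin.rev (na i)) k).transpose) *
        (gen (na i) k).transpose := by
        rw [hc]
        simp only [mul_assoc]
    _ = OO m := by rw [h2, h1]

theorem uto_middle {m : ℕ} {b : Mat (2 * m + 1)} (hb : UTO b) :
    b (na (Fin.last m)).castSucc (na (Fin.last m)).succ = 0 := by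
  obtain ⟨p, hp⟩ : ∃ p : Fin (2 * m + 1 + 1), p = (na (Fin.last m)).castSucc := ⟨_, rfl⟩
  obtain ⟨q, hq⟩ : ∃ q : Fin (2 * m + 1 + 1), q = (na (Fin.last m)).succ := ⟨_, rfl⟩
  have vp : (p : ℕ) = m := by rw [hp]; rfl
  have vq : (q : ℕ) = m + 1 := by rw [hq]; rfl
  have hpq : Fin.rev p = q := Fin.ext (by rw [Fin.val_rev, vp, vq]; omega)
  have hqp : Fin.rev q = p := by rw [← hpq, Fin.rev_rev]
  have hne : p ≠ q := fun h => by
    have := congrArg Fin.val h
    omega
  rw [← hp, ← hq]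
  have h1 := congrFun (congrFun hb.2 p) p
  rw [OO_apply, hpq, if_neg hne, Matrix.mul_apply] at h1
  have h2 : ∑ c, (b * OO m) p c * b.transpose c p =
      ∑ c ∈ ({p, q} : Finset (Fin (2 * m + 1 + 1))), (b * OO m) p c * b.transpose c p := by
    symm
    apply Finset.sum_subset (Finset.subset_univ _)
    intro c _ hc
    rw [Finset.mem_insert, Finset.mem_singleton, not_or] at hc
    rw [mul_OO, Matrix.transpose_apply]
    have c1 : (c : ℕ) ≠ m := fun h => hc.1 (Fin.ext (by omega))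
    have c2 : (c : ℕ) ≠ m + 1 := fun h => hc.2 (Fin.ext (by omega))
    have hc' := c.2
    rcases lt_or_gt_of_ne c1 with h | h
    · have : c < p := by
        rw [Fin.lt_def]
        omega
      rw [hb.1.1 p c this, mul_zero]
    · have : Fin.rev c < p := by
        rw [Fin.lt_def, Fin.val_rev]
        omega
      rw [hb.1.1 p (Fin.rev c) this, zero_mul]
  rw [h2, Finset.sum_pair hne, mul_OO, mul_OO, hpq, hqp, Matrix.transpose_apply,
    Matrix.transpose_apply] at h1
  have h3 := ut_diag hb.1 p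
  have h4 : b p p * b p q = 0 := by linarith
  rcases mul_eq_zero.1 h4 with h | h
  · exact absurd h h3
  · exact h

theorem cellO_cell {m : ℕ} {x : Mat (2 * m + 1)} {w : Equiv.Perm (Fin (2 * m + 1 + 1))} (h : CellO x w) :
    Cell x w := by
  obtain ⟨b, c, hb, hc, hx⟩ := h
  exact ⟨b, c, hb.1, hc.1, hx⟩

end Pool.Agent.Lib.MP_f146a9_al.DV
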