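import Pool.Agent.Lib.MP_f146a9_al.DVD.Defs

/-! The map of a Coxeter group of type D to symmetric permutations. -/

namespace Pool.Agent.Lib.MP_f146a9_al.DV

private def PermFD_s {m : ℕ} (i : Fin (2 * m + 1)) : Equiv.Perm (Fin (2 * m + 1 + 1)) :=
  Equiv.swap i.castSucc i.succ

private theorem PermFD_cube {α : Type*} [DecidableEq α] {a b c : α} (hab : a ≠ b) (hbc : b ≠ c)
    (hac : a ≠ c) : (Equiv.swap a b * Equiv.swap b c) ^ 3 = 1 := by
  ext x
  simp only [pow_succ, pow_zero, one_mul, Equiv.Perm.mul_apply, Equiv.Perm.one_apply,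
    Equiv.swap_apply_def]
  by_cases ha : x = a
  · subst ha
    simp [hab, hac, hab.symm, hbc.symm, hac.symm]
  · by_cases hb : x = b
    · subst hb
      simp [hab, hac, hab.symm, hbc.symm, hac.symm]
    · by_cases hc : x = c
      · subst hc
        simp [hab, hac, hab.symm, hbc.symm, hac.symm]
      · simp [ha, hb, hc]

private theorem PermFD_klein {α : Type*} [DecidableEq α] {a b c d : α} (hab : a ≠ b) (hac : a ≠ c)
    (had : a ≠ d) (hbc : b ≠ c) (hbd : b ≠ d) (hcd : c ≠ d) :
    (Equiv.swap b c * (Equiv.swap a b * Equiv.swap c d) * Equiv.swap b c *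
      (Equiv.swap a b * Equiv.swap c d)) ^ 2 = 1 := by
  ext x
  simp only [pow_succ, pow_zero, one_mul, Equiv.Perm.mul_apply, Equiv.Perm.one_apply,
    Equiv.swap_apply_def]
  by_cases h1 : x = a
  · subst h1
    simp [hab, hac, had, hbc, hbd, hcd, hab.symm, hac.symm, had.symm, hbc.symm, hbd.symm, hcd.symm]
  · by_cases h2 : x = b
    · subst h2
      simp [hab, hac, had, hbc, hbd, hcd, hab.symm, hac.symm, had.symm, hbc.symm, hbd.symm,
        hcd.symm]
    · by_cases h3 : x = c
      · subst h3
        simp [hab, hac, had, hbc, hbd, hcd, hab.symm, hac.symm, had.symm, hbc.symm, hbd.symm,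
          hcd.symm]
      · by_cases h4 : x = d
        · subst h4
          simp [hab, hac, had, hbc, hbd, hcd, hab.symm, hac.symm, had.symm, hbc.symm, hbd.symm,
            hcd.symm]
        · simp [h1, h2, h3, h4]

private theorem PermFD_sq {m : ℕ} (i : Fin (2 * m + 1)) : PermFD_s i * PermFD_s i = 1 :=
  Equiv.swap_mul_self _ _

private theorem PermFD_comm {m : ℕ} (i j : Fin (2 * m + 1))
    (h : (i : ℕ) + 2 ≤ j ∨ (j : ℕ) + 2 ≤ i) : Commute (PermFD_s i) (PermFD_s j) := by
  have hd : Equiv.Perm.Disjoint (PermFD_s i) (PermFD_s j) := by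
    intro x
    by_cases hx : x = i.castSucc ∨ x = i.succ
    · right
      apply Equiv.swap_apply_of_ne_of_ne
      · rcases hx with rfl | rfl
        · intro h
          have := congrArg Fin.val h
          simp at this
          omega
        · intro h
          have := congrArg Fin.val h
          simp at this
          omega
      · rcases hx with rfl | rfl
        · intro h
          have := congrArg Fin.val h
          simp at this
          omega
        · intro h
          have := congrArg Fin.val h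
          simp at this
          omega
    · push Not at hx
      left
      exact Equiv.swap_apply_of_ne_of_ne hx.1 hx.2
  exact hd.commute

private theorem PermFD_three {m : ℕ} (i j : Fin (2 * m + 1))
    (h : (i : ℕ) + 1 = j ∨ (j : ℕ) + 1 = i) : (PermFD_s i * PermFD_s j) ^ 3 = 1 := by
  unfold PermFD_s
  rcases h with hn | hn
  · have e1 : i.succ = j.castSucc := Fin.ext (by simp; omega)
    rw [e1]
    apply PermFD_cube
    · intro h
      have := congrArg Fin.val h
      simp at this
      omega
    · intro h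
      have := congrArg Fin.val h
      simp at this
    · intro h
      have := congrArg Fin.val h
      simp at this
      omega
  · have e1 : i.castSucc = j.succ := Fin.ext (by simp; omega)
    have h1 : (Equiv.swap i.castSucc i.succ : Equiv.Perm (Fin (2 * m + 1 + 1))) =
        Equiv.swap i.succ j.succ := by rw [e1, Equiv.swap_comm]
    have h2 : (Equiv.swap j.castSucc j.succ : Equiv.Perm (Fin (2 * m + 1 + 1))) =
        Equiv.swap j.succ j.castSucc := by rw [Equiv.swap_comm]
    rw [h1, h2]
    apply PermFD_cube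
    · intro h
      have := congrArg Fin.val h
      simp at this
      omega
    · intro h
      have := congrArg Fin.val h
      simp at this
    · intro h
      have := congrArg Fin.val h
      simp at this
      omega

private theorem PermFD_O {m : ℕ} (i : Fin (m + 1)) :
    swO i = PermFD_s (na i) * PermFD_s (Fin.rev (na i)) := rfl

private theorem PermFD_tt (m : ℕ) : tt m = PermFD_s (na (Fin.last m)) := rfl

private theorem PermFD_val {m : ℕ} (i : Fin (m + 1)) : ((na i : Fin (2 * m + 1)) : ℕ) = i := rfl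

private theorem PermFD_rev {m : ℕ} (i : Fin (m + 1)) :
    ((Fin.rev (na i) : Fin (2 * m + 1)) : ℕ) = 2 * m - i := by
  rw [Fin.val_rev, PermFD_val]
  omega

private theorem PermFD_cc {m : ℕ} (i : Fin (m + 1)) (h : (i : ℕ) < m) :
    Commute (PermFD_s (na i)) (PermFD_s (Fin.rev (na i))) := by
  apply PermFD_comm
  rw [PermFD_val, PermFD_rev]
  omega

private theorem PermFD_O_sq {m : ℕ} (i : Fin (m + 1)) (h : (i : ℕ) < m) :
    swO i * swO i = (1 : Equiv.Perm (Fin (2 * m + 1 + 1))) := by
  rw [PermFD_O]
  have hc := PermFD_cc i h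
  calc PermFD_s (na i) * PermFD_s (Fin.rev (na i)) * (PermFD_s (na i) * PermFD_s (Fin.rev (na i)))
      = PermFD_s (na i) * (PermFD_s (Fin.rev (na i)) * PermFD_s (na i)) *
        PermFD_s (Fin.rev (na i)) := by simp only [mul_assoc]
    _ = PermFD_s (na i) * (PermFD_s (na i) * PermFD_s (Fin.rev (na i))) *
        PermFD_s (Fin.rev (na i)) := by rw [hc.eq]
    _ = (PermFD_s (na i) * PermFD_s (na i)) * (PermFD_s (Fin.rev (na i)) *
        PermFD_s (Fin.rev (na i))) := by simp only [mul_assoc]
    _ = 1 := by rw [PermFD_sq, PermFD_sq, one_mul]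

private theorem PermFD_O_far {m : ℕ} (i j : Fin (m + 1)) (h : (i : ℕ) + 2 ≤ j) (hj : (j : ℕ) < m) :
    Commute (swO i) (swO j : Equiv.Perm (Fin (2 * m + 1 + 1))) := by
  rw [PermFD_O, PermFD_O]
  apply Commute.mul_left
  · apply Commute.mul_right
    · apply PermFD_comm
      rw [PermFD_val, PermFD_val]
      omega
    · apply PermFD_comm
      rw [PermFD_val, PermFD_rev]
      omega
  · apply Commute.mul_right
    · apply PermFD_comm
      rw [PermFD_val, PermFD_rev]
      omega
    · apply PermFD_comm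
      rw [PermFD_rev, PermFD_rev]
      omega

private theorem PermFD_O_near {m : ℕ} (i j : Fin (m + 1)) (hi : (i : ℕ) < m) (hj : (j : ℕ) < m)
    (h : (i : ℕ) + 1 = j ∨ (j : ℕ) + 1 = i) :
    (swO i * swO j) ^ 3 = (1 : Equiv.Perm (Fin (2 * m + 1 + 1))) := by
  rw [PermFD_O, PermFD_O]
  have c1 : Commute (PermFD_s (Fin.rev (na i))) (PermFD_s (na j)) := by
    apply PermFD_comm
    rw [PermFD_val, PermFD_rev]
    omega
  have c2 : Commute (PermFD_s (na i)) (PermFD_s (Fin.rev (na j))) := by
    apply PermFD_comm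
    rw [PermFD_val, PermFD_rev]
    omega
  have c3 := PermFD_cc i hi
  have c4 := PermFD_cc j hj
  have e : PermFD_s (na i) * PermFD_s (Fin.rev (na i)) * (PermFD_s (na j) *
      PermFD_s (Fin.rev (na j))) = (PermFD_s (na i) * PermFD_s (na j)) *
      (PermFD_s (Fin.rev (na i)) * PermFD_s (Fin.rev (na j))) := by
    calc _ = PermFD_s (na i) * (PermFD_s (Fin.rev (na i)) * PermFD_s (na j)) *
          PermFD_s (Fin.rev (na j)) := by simp only [mul_assoc]
      _ = PermFD_s (na i) * (PermFD_s (na j) * PermFD_s (Fin.rev (na i))) *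
          PermFD_s (Fin.rev (na j)) := by rw [c1.eq]
      _ = _ := by simp only [mul_assoc]
  have hc : Commute (PermFD_s (na i) * PermFD_s (na j))
      (PermFD_s (Fin.rev (na i)) * PermFD_s (Fin.rev (na j))) := by
    apply Commute.mul_left
    · exact Commute.mul_right c3 c2
    · exact Commute.mul_right c1.symm c4
  rw [e, hc.mul_pow, PermFD_three, PermFD_three, one_mul]
  · rw [PermFD_rev, PermFD_rev]
    omega
  · rw [PermFD_val, PermFD_val]
    exact h

private theorem PermFD_tt_sq (m : ℕ) : tt m * tt m = 1 := Equiv.swap_mul_self _ _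

private theorem PermFD_tt_comm {m : ℕ} (i : Fin (m + 1)) (h : (i : ℕ) + 2 ≤ m) :
    Commute (tt m) (swO i) := by
  rw [PermFD_tt, PermFD_O]
  apply Commute.mul_right
  · apply PermFD_comm
    rw [PermFD_val, PermFD_val, Fin.val_last]
    omega
  · apply PermFD_comm
    rw [PermFD_val, PermFD_rev, Fin.val_last]
    omega

private theorem PermFD_conj {G : Type*} [Group G] {x y : G} {k : ℕ} (h : (x * y) ^ k = 1) :
    (y * x) ^ k = 1 := by
  have h1 : y * x = x⁻¹ * (x * y) * x := by group
  have h2 : (x⁻¹ * (x * y) * x) ^ k = x⁻¹ * (x * y) ^ k * x := by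
    have := conj_pow (i := k) (a := x⁻¹) (b := x * y)
    rw [inv_inv] at this
    exact this
  rw [h1, h2, h]
  group

private theorem PermFD_tc {G : Type*} [Group G] {t x : G} {k : ℕ} (ht : t * t = 1)
    (h : x ^ k = 1) : (t * x * t) ^ k = 1 := by
  have h1 : t⁻¹ = t := inv_eq_of_mul_eq_one_left ht
  have := conj_pow (i := k) (a := t) (b := x)
  rw [h1] at this
  rw [this, h, mul_one, ht]

private theorem PermFD_tm {G : Type*} [Group G] {t x y : G} (ht : t * t = 1) (hc : Commute t y) :
    t * x * t * y = t * (x * y) * t := by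
  calc t * x * t * y = t * x * (t * y) := by simp only [mul_assoc]
    _ = t * x * (y * t) := by rw [hc.eq]
    _ = t * (x * y) * t := by simp only [mul_assoc]

private theorem PermFD_pl (m : ℕ) : ((pl m : Fin (m + 2 + 1)) : ℕ) = m + 1 := rfl

private theorem PermFD_last (m : ℕ) :
    swD (Fin.last (m + 2)) = tt (m + 2) * swO (pl m) * tt (m + 2) := by
  unfold swD
  rw [if_pos rfl]

private theorem PermFD_lt {m : ℕ} (i : Fin (m + 2 + 1)) (h : i ≠ Fin.last (m + 2)) :
    swD i = swO i := by
  unfold swD
  rw [if_neg h]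

private theorem PermFD_ne {m : ℕ} (i : Fin (m + 1)) (h : i ≠ Fin.last m) : (i : ℕ) < m := by
  have h1 := i.isLt
  have h2 : (i : ℕ) ≠ m := fun e => h (Fin.ext (by simpa using e))
  omega

private theorem PermFD_D_sq {m : ℕ} (i : Fin (m + 2 + 1)) :
    swD i * swD i = (1 : Equiv.Perm (Fin (2 * (m + 2) + 1 + 1))) := by
  by_cases h : i = Fin.last (m + 2)
  · have h0 := PermFD_O_sq (m := m + 2) (pl m) (by rw [PermFD_pl]; omega)
    rw [← pow_two] at h0 ⊢
    rw [h, PermFD_last]
    exact PermFD_tc (PermFD_tt_sq _) h0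
  · rw [PermFD_lt i h]
    exact PermFD_O_sq i (PermFD_ne i h)

private theorem PermFD_four (m : ℕ) :
    (tt (m + 2) * swO (pl m) * tt (m + 2) * swO (pl m)) ^ 2 =
      (1 : Equiv.Perm (Fin (2 * (m + 2) + 1 + 1))) := by
  rw [PermFD_O, PermFD_tt]
  unfold PermFD_s
  have e1 : (na (pl m) : Fin (2 * (m + 2) + 1)).succ =
      (na (Fin.last (m + 2)) : Fin (2 * (m + 2) + 1)).castSucc := by
    apply Fin.ext
    rw [Fin.val_succ, Fin.val_castSucc, PermFD_val, PermFD_val, Fin.val_last, PermFD_pl]
  have e2 : (Fin.rev (na (pl m)) : Fin (2 * (m + 2) + 1)).castSucc =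
      (na (Fin.last (m + 2)) : Fin (2 * (m + 2) + 1)).succ := by
    apply Fin.ext
    rw [Fin.val_succ, Fin.val_castSucc, PermFD_val, PermFD_rev, Fin.val_last, PermFD_pl]
    omega
  rw [e1, e2]
  apply PermFD_klein
  · intro h'
    have := congrArg Fin.val h'
    rw [Fin.val_castSucc, Fin.val_castSucc, PermFD_val, PermFD_val, Fin.val_last, PermFD_pl] at this
    omega
  · intro h'
    have := congrArg Fin.val h'
    rw [Fin.val_castSucc, Fin.val_succ, PermFD_val, PermFD_val, Fin.val_last, PermFD_pl] at this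
    omega
  · intro h'
    have := congrArg Fin.val h'
    rw [Fin.val_castSucc, Fin.val_succ, PermFD_val, PermFD_rev, PermFD_pl] at this
    omega
  · intro h'
    have := congrArg Fin.val h'
    rw [Fin.val_castSucc, Fin.val_succ] at this
    omega
  · intro h'
    have := congrArg Fin.val h'
    rw [Fin.val_castSucc, Fin.val_succ, PermFD_val, PermFD_rev, Fin.val_last, PermFD_pl] at this
    omega
  · intro h'
    have := congrArg Fin.val h'
    rw [Fin.val_succ, Fin.val_succ, PermFD_val, PermFD_rev, Fin.val_last, PermFD_pl] at this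
    omega

private theorem PermFD_mix {m : ℕ} (j : Fin (m + 2 + 1)) (hj : j ≠ Fin.last (m + 2)) :
    (swD (Fin.last (m + 2)) * swD j) ^ (if (j : ℕ) = m then 3 else 2) =
      (1 : Equiv.Perm (Fin (2 * (m + 2) + 1 + 1))) := by
  have hj' := PermFD_ne j hj
  rw [PermFD_last, PermFD_lt j hj]
  by_cases h1 : (j : ℕ) = m + 1
  · have e : j = pl m := Fin.ext (by rw [PermFD_pl, h1])
    rw [if_neg (by omega), e]
    exact PermFD_four m
  · rw [PermFD_tm (PermFD_tt_sq _) (PermFD_tt_comm j (by omega))]
    apply PermFD_tc (PermFD_tt_sq _)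
    split_ifs with h2
    · apply PermFD_O_near
      · rw [PermFD_pl]; omega
      · exact hj'
      · rw [PermFD_pl]; omega
    · have hc := PermFD_O_far j (pl m) (by rw [PermFD_pl]; omega) (by rw [PermFD_pl]; omega)
      rw [hc.symm.mul_pow, pow_two, pow_two, PermFD_O_sq _ (by rw [PermFD_pl]; omega),
        PermFD_O_sq _ hj', one_mul]

theorem exists_permD {m : ℕ} {W : Type*} [Group W] (cs : CoxeterSystem (typeD m) W) :
    ∃ f : W →* Equiv.Perm (Fin (2 * (m + 2) + 1 + 1)), ∀ i : Fin (m + 2 + 1), f (cs.simple i) = swD i := by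
  have hf : (typeD m).IsLiftable
      (fun i : Fin (m + 2 + 1) => (swD i : Equiv.Perm (Fin (2 * (m + 2) + 1 + 1)))) := by
    intro i j
    have hM : (typeD m) i j = if i = j then 1
      else if ((i : ℕ) = m + 2 ∧ (j : ℕ) = m) ∨ ((j : ℕ) = m + 2 ∧ (i : ℕ) = m) then 3
        else if ((i : ℕ) = m + 2 ∧ (j : ℕ) = m + 1) ∨ ((j : ℕ) = m + 2 ∧ (i : ℕ) = m + 1) then 2
          else if (j : ℕ) + 1 = i ∨ (i : ℕ) + 1 = j then 3 else 2 := rfl
    rw [hM]
    show (swD i * swD j) ^ _ = (1 : Equiv.Perm (Fin (2 * (m + 2) + 1 + 1)))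
    by_cases hij : i = j
    · subst hij
      rw [if_pos rfl, pow_one]
      exact PermFD_D_sq i
    · rw [if_neg hij]
      have hij' : (i : ℕ) ≠ j := fun h => hij (Fin.ext h)
      have hi := i.isLt
      have hj := j.isLt
      by_cases hil : i = Fin.last (m + 2)
      · have hjl : j ≠ Fin.last (m + 2) := fun e => hij (hil.trans e.symm)
        have hv : (i : ℕ) = m + 2 := by rw [hil]; rfl
        have h := PermFD_mix j hjl
        rw [← hil] at h
        have hjv := PermFD_ne j hjl
        convert h using 2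
        split_ifs <;> omega
      · by_cases hjl : j = Fin.last (m + 2)
        · have hv : (j : ℕ) = m + 2 := by rw [hjl]; rfl
          have h := PermFD_conj (PermFD_mix i hil)
          rw [← hjl] at h
          have hiv := PermFD_ne i hil
          convert h using 2
          split_ifs <;> omega
        · have hiv := PermFD_ne i hil
          have hjv := PermFD_ne j hjl
          rw [if_neg (by omega), if_neg (by omega), PermFD_lt i hil, PermFD_lt j hjl]
          split_ifs with h3
          · exact PermFD_O_near i j hiv hjv (by omega)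
          · have hc : Commute (swO i) (swO j : Equiv.Perm (Fin (2 * (m + 2) + 1 + 1))) := by
              rcases Nat.lt_or_ge (i : ℕ) j with h | h
              · exact PermFD_O_far i j (by omega) hjv
              · exact (PermFD_O_far j i (by omega) hiv).symm
            rw [hc.mul_pow, pow_two, pow_two, PermFD_O_sq _ hiv, PermFD_O_sq _ hjv, one_mul]
  exact ⟨cs.lift ⟨_, hf⟩, fun i => cs.lift_apply_simple hf i⟩

private theorem PermFD_s_rev {m : ℕ} (i : Fin (2 * m + 1)) (a : Fin (2 * m + 1 + 1)) :
    PermFD_s i (Fin.rev a) = Fin.rev (PermFD_s (Fin.rev i) a) := by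
  unfold PermFD_s
  by_cases h1 : a = (Fin.rev i).castSucc
  · rw [h1, Equiv.swap_apply_left, Fin.rev_succ, Fin.rev_castSucc, Fin.rev_rev,
      Equiv.swap_apply_right]
  · by_cases h2 : a = (Fin.rev i).succ
    · rw [h2, Equiv.swap_apply_right, Fin.rev_succ, Fin.rev_castSucc, Fin.rev_rev,
        Equiv.swap_apply_left]
    · rw [Equiv.swap_apply_of_ne_of_ne h1 h2, Equiv.swap_apply_of_ne_of_ne]
      · intro h
        apply h2
        rw [← Fin.rev_castSucc, ← h, Fin.rev_rev]
      · intro h
        apply h1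
        rw [← Fin.rev_succ, ← h, Fin.rev_rev]

private theorem PermFD_sym_mul {m : ℕ} {v w : Equiv.Perm (Fin (2 * m + 1 + 1))} (hv : SymP v)
    (hw : SymP w) : SymP (v * w) := by
  intro a
  rw [Equiv.Perm.mul_apply, Equiv.Perm.mul_apply, hw a, hv (w a)]

private theorem PermFD_sym_tt (m : ℕ) : SymP (tt m) := by
  intro a
  have e : (Fin.rev (na (Fin.last m)) : Fin (2 * m + 1)) = na (Fin.last m) := by
    apply Fin.ext
    rw [PermFD_rev, PermFD_val, Fin.val_last]
    omega
  rw [PermFD_tt, PermFD_s_rev, e]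

private theorem PermFD_sym_O {m : ℕ} (i : Fin (m + 1)) (h : (i : ℕ) < m) :
    SymP (swO i : Equiv.Perm (Fin (2 * m + 1 + 1))) := by
  intro a
  have hc := PermFD_cc i h
  rw [PermFD_O, Equiv.Perm.mul_apply, PermFD_s_rev, Fin.rev_rev, PermFD_s_rev,
    ← Equiv.Perm.mul_apply, hc.eq]

private theorem PermFD_sym {m : ℕ} (i : Fin (m + 2 + 1)) :
    SymP (swD i : Equiv.Perm (Fin (2 * (m + 2) + 1 + 1))) := by
  by_cases h : i = Fin.last (m + 2)
  · rw [h, PermFD_last]
    exact PermFD_sym_mul (PermFD_sym_mul (PermFD_sym_tt _)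
      (PermFD_sym_O _ (by rw [PermFD_pl]; omega))) (PermFD_sym_tt _)
  · rw [PermFD_lt i h]
    exact PermFD_sym_O i (PermFD_ne i h)

theorem symP_fD {m : ℕ} {W : Type*} [Group W] (cs : CoxeterSystem (typeD m) W)
    (f : W →* Equiv.Perm (Fin (2 * (m + 2) + 1 + 1))) (hf : ∀ i : Fin (m + 2 + 1), f (cs.simple i) = swD i)
    (w : W) : SymP (f w) := by
  refine cs.simple_induction (p := fun w => SymP (f w)) w ?_ ?_ ?_
  · intro i
    change SymP (f (cs.simple i))
    rw [hf i]
    exact PermFD_sym i
  · change SymP (f 1)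
    rw [map_one]
    intro a
    rfl
  · intro u v hu hv
    change SymP (f (u * v))
    rw [map_mul]
    exact PermFD_sym_mul hu hv

end Pool.Agent.Lib.MP_f146a9_al.DV
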