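import Pool.Agent.Lib.MP_f146a9_al.DVD.Ort

/-! The Bruhat step in the split orthogonal group. -/

namespace Pool.Agent.Lib.MP_f146a9_al.DV

private def PiO_X {m : ℕ} (p q : Fin (2 * m + 1 + 1)) (t : ℚ) : Mat (2 * m + 1) :=
  Matrix.of fun e d => (if e = d then 1 else 0) + (if e = p then (if d = q then t else 0) else 0) -
    (if e = Fin.rev q then (if d = Fin.rev p then t else 0) else 0)

private theorem PiO_X_apply {m : ℕ} (p q : Fin (2 * m + 1 + 1)) (t : ℚ) (e d : Fin (2 * m + 1 + 1)) :
    PiO_X p q t e d = (if e = d then 1 else 0) + (if e = p then (if d = q then t else 0) else 0) -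
      (if e = Fin.rev q then (if d = Fin.rev p then t else 0) else 0) := rfl

private theorem PiO_mulX {m : ℕ} (x : Mat (2 * m + 1)) (p q : Fin (2 * m + 1 + 1)) (t : ℚ)
    (a d : Fin (2 * m + 1 + 1)) :
    (x * PiO_X p q t) a d = x a d + (if d = q then x a p * t else 0) -
      (if d = Fin.rev p then x a (Fin.rev q) * t else 0) := by
  rw [Matrix.mul_apply]
  simp only [PiO_X_apply, mul_add, mul_sub, Finset.sum_add_distrib, Finset.sum_sub_distrib, mul_ite, mul_one, mul_zero,
    Finset.sum_ite_eq', Finset.mem_univ, if_true]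

private theorem PiO_X_inv {m : ℕ} {p q : Fin (2 * m + 1 + 1)} (hpq : p < q) (hq : q < Fin.rev q) (t : ℚ) :
    PiO_X p q t * PiO_X p q (-t) = 1 := by
  have h0 : Fin.rev q < Fin.rev p := Fin.rev_lt_rev.2 hpq
  have h1 : p ≠ q := hpq.ne
  have h2 : p ≠ Fin.rev p := (hpq.trans (hq.trans h0)).ne
  have h3 : Fin.rev q ≠ q := hq.ne'
  have h4 : Fin.rev q ≠ Fin.rev p := h0.ne
  have key : ∀ (P Q R S : Prop) [Decidable P] [Decidable Q] [Decidable R] [Decidable S] (z : ℚ),
      (z + (if P then (if Q then t else 0) else 0) - (if R then (if S then t else 0) else 0)) +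
        (if Q then (if P then 1 else 0) * (-t) else 0) - (if S then (if R then 1 else 0) * (-t) else 0) = z := by
    intro P Q R S _ _ _ _ z
    split_ifs <;> ring
  ext a d
  have k1 : PiO_X p q t a p = if a = p then 1 else 0 := by
    rw [PiO_X_apply, if_neg h1, if_neg h2, ite_self, ite_self, add_zero, sub_zero]
  have k2 : PiO_X p q t a (Fin.rev q) = if a = Fin.rev q then 1 else 0 := by
    rw [PiO_X_apply, if_neg h3, if_neg h4, ite_self, ite_self, add_zero, sub_zero]
  rw [PiO_mulX, k1, k2, PiO_X_apply, Matrix.one_apply]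
  exact key (a = p) (d = q) (a = Fin.rev q) (d = Fin.rev p) _

private theorem PiO_X_ort {m : ℕ} {p q : Fin (2 * m + 1 + 1)} (hpq : p < q) (hq : q < Fin.rev q) (t : ℚ) :
    PiO_X p q t * OO m * (PiO_X p q t).transpose = OO m := by
  have h1 : OO m * ((PiO_X p q t).transpose * OO m) = PiO_X p q (-t) := by
    ext a b
    have e1 : ∀ x : Fin (2 * m + 1 + 1), (Fin.revPerm : Equiv.Perm (Fin (2 * m + 1 + 1)))⁻¹ x = Fin.rev x := fun x => rfl
    rw [OO, pm_mul_apply, mul_pm_apply, Matrix.transpose_apply, e1, Fin.revPerm_apply, PiO_X_apply, PiO_X_apply]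
    have e2 : (Fin.rev b = Fin.rev a) = (a = b) := propext ⟨fun h => (Fin.rev_injective h).symm, fun h => by rw [h]⟩
    have e3 : (Fin.rev b = p) = (b = Fin.rev p) := propext ⟨fun h => by rw [← h, Fin.rev_rev], fun h => by rw [h, Fin.rev_rev]⟩
    have e4 : (Fin.rev a = q) = (a = Fin.rev q) := propext ⟨fun h => by rw [← h, Fin.rev_rev], fun h => by rw [h, Fin.rev_rev]⟩
    have e5 : (Fin.rev b = Fin.rev q) = (b = q) := propext ⟨fun h => Fin.rev_injective h, fun h => by rw [h]⟩
    have e6 : (Fin.rev a = Fin.rev p) = (a = p) := propext ⟨fun h => Fin.rev_injective h, fun h => by rw [h]⟩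
    simp only [e2, e3, e4, e5, e6]
    have key : ∀ (P Q R S : Prop) [Decidable P] [Decidable Q] [Decidable R] [Decidable S] (z : ℚ),
        z + (if S then (if R then t else 0) else 0) - (if Q then (if P then t else 0) else 0) =
          z + (if P then (if Q then -t else 0) else 0) - (if R then (if S then -t else 0) else 0) := by
      intro P Q R S _ _ _ _ z
      split_ifs <;> ring
    exact key (a = p) (b = q) (a = Fin.rev q) (b = Fin.rev p) _
  calc PiO_X p q t * OO m * (PiO_X p q t).transpose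
      = PiO_X p q t * OO m * (PiO_X p q t).transpose * (OO m * OO m) := by rw [OO_sq, mul_one]
    _ = PiO_X p q t * (OO m * ((PiO_X p q t).transpose * OO m)) * OO m := by
        simp only [mul_assoc]
    _ = OO m := by rw [h1, PiO_X_inv hpq hq, one_mul]

private theorem PiO_Z {m : ℕ} {p q : Fin (2 * m + 1 + 1)} (hpq : p < q) (hq : q < Fin.rev q)
    (hgap : ∀ a, Fin.rev q < a → a ≠ Fin.rev p → Fin.rev p < a) {b : Mat (2 * m + 1)}
    (hb : ∀ a c, c < a → ¬ (a = Fin.rev p ∧ c = Fin.rev q) → b a c = 0)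
    (ho : b * OO m * b.transpose = OO m) : UTO b := by
  have h0 : Fin.rev q < Fin.rev p := Fin.rev_lt_rev.2 hpq
  have hu := ort_unit ho
  have := Matrix.invertibleOfIsUnitDet b hu
  have hbt : Matrix.BlockTriangular b fun a => if a = Fin.rev p then Fin.rev q else a := by
    intro i j hij
    by_cases e1 : i = Fin.rev p
    · by_cases e2 : j = Fin.rev p
      · simp only [e1, e2, if_true, lt_self_iff_false] at hij
      · simp only [e1, e2, if_true, if_false] at hij
        rw [e1]
        exact hb _ _ (hij.trans h0) fun h => hij.ne h.2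
    · by_cases e2 : j = Fin.rev p
      · simp only [e1, e2, if_true, if_false] at hij
        rw [e2]
        exact hb _ _ (hgap i hij e1) fun h => e1 h.1
      · simp only [e1, e2, if_false] at hij
        exact hb _ _ hij fun h => e1 h.1
  have hinv := Matrix.blockTriangular_inv_of_blockTriangular hbt
  have hp : p ≠ Fin.rev p := (hpq.trans (hq.trans h0)).ne
  have hq' : q ≠ Fin.rev p := (hq.trans h0).ne
  have h1 : b⁻¹ q p = 0 := by
    refine hinv ?_
    simp only [if_neg hp, if_neg hq']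
    exact hpq
  rw [ort_inv ho] at h1
  refine ⟨⟨fun a c hca => ?_, hu⟩, ho⟩
  by_cases h2 : a = Fin.rev p ∧ c = Fin.rev q
  · rw [h2.1, h2.2]
    exact h1
  · exact hb a c hca h2

private theorem PiO_main {m : ℕ} {p q : Fin (2 * m + 1 + 1)} (hpq : p < q) (hq : q < Fin.rev q)
    (hgapA : ∀ a, p < a → a ≠ q → q < a)
    (hgap : ∀ a, Fin.rev q < a → a ≠ Fin.rev p → Fin.rev p < a) (y : Mat (2 * m + 1))
    (hy : ∀ a c, c < a → ¬ (a = q ∧ c = p) → ¬ (a = Fin.rev p ∧ c = Fin.rev q) → y a c = 0)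
    (ho : y * OO m * y.transpose = OO m) (w : Equiv.Perm (Fin (2 * m + 1 + 1))) (hs : SymP w)
    (s : Equiv.Perm (Fin (2 * m + 1 + 1))) (hss : SymP s)
    (hsd : s = Equiv.swap p q * Equiv.swap (Fin.rev q) (Fin.rev p)) (hw : w⁻¹ p < w⁻¹ q) :
    (y q p ≠ 0 → CellO (y * pm w) (s * w)) ∧ (y q p = 0 → CellO (y * pm w) w) := by
  have h0 : Fin.rev q < Fin.rev p := Fin.rev_lt_rev.2 hpq
  have n1 : p ≠ q := hpq.ne
  have n2 : p ≠ Fin.rev p := (hpq.trans (hq.trans h0)).ne
  have n3 : q ≠ Fin.rev q := hq.ne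
  have n4 : Fin.rev q ≠ Fin.rev p := h0.ne
  have n5 : p ≠ Fin.rev q := (hpq.trans hq).ne
  have n6 : q ≠ Fin.rev p := (hq.trans h0).ne
  refine ⟨fun hne => ?_, fun he => ?_⟩
  · have sp : s p = q := by
      rw [hsd, Equiv.Perm.mul_apply, Equiv.swap_apply_of_ne_of_ne n5 n2, Equiv.swap_apply_left]
    have sq : s q = p := by
      rw [hsd, Equiv.Perm.mul_apply, Equiv.swap_apply_of_ne_of_ne n3 n6, Equiv.swap_apply_right]
    have srq : s (Fin.rev q) = Fin.rev p := by
      rw [hsd, Equiv.Perm.mul_apply, Equiv.swap_apply_left, Equiv.swap_apply_of_ne_of_ne n2.symm n6.symm]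
    have srp : s (Fin.rev p) = Fin.rev q := by
      rw [hsd, Equiv.Perm.mul_apply, Equiv.swap_apply_right, Equiv.swap_apply_of_ne_of_ne n5.symm n3.symm]
    have so : ∀ d, d ≠ p → d ≠ q → d ≠ Fin.rev q → d ≠ Fin.rev p → s d = d := by
      intro d h1 h2 h3 h4
      rw [hsd, Equiv.Perm.mul_apply, Equiv.swap_apply_of_ne_of_ne h3 h4, Equiv.swap_apply_of_ne_of_ne h1 h2]
    have sinv : s * s = 1 := by
      ext1 d
      rw [Equiv.Perm.mul_apply, Equiv.Perm.one_apply]
      by_cases h1 : d = p
      · rw [h1, sp, sq]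
      by_cases h2 : d = q
      · rw [h2, sq, sp]
      by_cases h3 : d = Fin.rev q
      · rw [h3, srq, srp]
      by_cases h4 : d = Fin.rev p
      · rw [h4, srp, srq]
      rw [so d h1 h2 h3 h4, so d h1 h2 h3 h4]
    have hSS : pm s * pm s = (1 : Mat (2 * m + 1)) := by
      rw [← pm_mul, sinv, pm_one]
    have hww : pm w * pm w⁻¹ = (1 : Mat (2 * m + 1)) := by
      rw [← pm_mul, mul_inv_cancel, pm_one]
    set c : ℚ := y q q / y q p with hc
    have hXX : PiO_X p q (-c) * PiO_X p q c = (1 : Mat (2 * m + 1)) := by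
      have := PiO_X_inv hpq hq (-c)
      rwa [neg_neg] at this
    have hsi : SymP w⁻¹ := by
      intro a
      have h1 := hs (w⁻¹ a)
      rw [show w (w⁻¹ a) = a from w.apply_symm_apply a] at h1
      rw [← h1]
      exact w.symm_apply_apply _
    have hC : (pm w⁻¹ * PiO_X p q c * pm w) * OO m * (pm w⁻¹ * PiO_X p q c * pm w).transpose = OO m :=
      ort_mul (ort_mul (pm_ort hsi) (PiO_X_ort hpq hq c)) (pm_ort hs)
    refine ⟨y * PiO_X p q (-c) * pm s, pm w⁻¹ * PiO_X p q c * pm w, ?_, ⟨⟨?_, ort_unit hC⟩, hC⟩, ?_⟩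
    · refine PiO_Z hpq hq hgap ?_ (ort_mul (ort_mul ho (PiO_X_ort hpq hq (-c))) (pm_ort hss))
      intro a d hda hex
      rw [mul_pm_apply, PiO_mulX]
      by_cases h1 : d = p
      · rw [h1, sp, if_pos rfl, if_neg n6, sub_zero]
        rw [h1] at hda
        by_cases h2 : a = q
        · rw [h2, hc]
          field_simp
          ring
        · have h3 := hgapA a hda h2
          rw [hy a q h3 (fun e => h2 e.1) (fun e => n3 e.2), hy a p hda (fun e => h2 e.1) (fun e => n5 e.2)]
          ring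
      by_cases h2 : d = q
      · rw [h2, sq, if_neg n1, if_neg n2, add_zero, sub_zero]
        rw [h2] at hda
        exact hy a p (hpq.trans hda) (fun e => hda.ne' e.1) (fun e => n5 e.2)
      by_cases h3 : d = Fin.rev q
      · rw [h3, srq, if_neg n6.symm, if_pos rfl, add_zero]
        rw [h3] at hda hex
        have h4 : a ≠ Fin.rev p := fun e => hex ⟨e, rfl⟩
        have h5 := hgap a hda h4
        rw [hy a (Fin.rev p) h5 (fun e => n2 e.2.symm) (fun e => h4 e.1), hy a (Fin.rev q) hda (fun e => n5 e.2.symm) (fun e => h4 e.1)]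
        ring
      by_cases h4 : d = Fin.rev p
      · rw [h4, srp, if_neg n3.symm, if_neg n4, add_zero, sub_zero]
        rw [h4] at hda
        exact hy a (Fin.rev q) (h0.trans hda) (fun e => n5 e.2.symm) (fun e => hda.ne' e.1)
      rw [so d h1 h2 h3 h4, if_neg h2, if_neg h4, add_zero, sub_zero]
      exact hy a d hda (fun e => h1 e.2) (fun e => h3 e.2)
    · intro a d hda
      rw [mul_pm_apply, pm_mul_apply, inv_inv, PiO_X_apply, if_neg (fun e => hda.ne' (w.injective e)), zero_add]
      have e1 : ∀ x, w⁻¹ (w x) = x := fun x => w.symm_apply_apply x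
      have f1 : (if w a = p then (if w d = q then c else 0) else 0) = 0 := by
        by_cases h1 : w a = p
        · by_cases h2 : w d = q
          · exfalso
            rw [← h1, ← h2, e1, e1] at hw
            exact lt_asymm hw hda
          · rw [if_pos h1, if_neg h2]
        · rw [if_neg h1]
      have f2 : (if w a = Fin.rev q then (if w d = Fin.rev p then c else 0) else 0) = 0 := by
        by_cases h1 : w a = Fin.rev q
        · by_cases h2 : w d = Fin.rev p
          · exfalso
            have g1 : a = Fin.rev (w⁻¹ q) := by rw [← hsi, ← h1, e1]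
            have g2 : d = Fin.rev (w⁻¹ p) := by rw [← hsi, ← h2, e1]
            rw [g1, g2, Fin.rev_lt_rev] at hda
            exact lt_asymm hw hda
          · rw [if_pos h1, if_neg h2]
        · rw [if_neg h1]
      rw [f1, f2, sub_zero]
    · calc y * pm w = y * (PiO_X p q (-c) * PiO_X p q c) * pm w := by rw [hXX, mul_one]
        _ = y * PiO_X p q (-c) * 1 * 1 * PiO_X p q c * pm w := by
          rw [mul_one, mul_one, ← mul_assoc]
        _ = y * PiO_X p q (-c) * (pm s * pm s) * (pm w * pm w⁻¹) * PiO_X p q c * pm w := by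
          rw [hSS, hww]
        _ = y * PiO_X p q (-c) * pm s * pm (s * w) * (pm w⁻¹ * PiO_X p q c * pm w) := by
          rw [pm_mul]
          simp only [mul_assoc]
  · refine ⟨y, 1, PiO_Z hpq hq hgap (fun a d hda hex => ?_) ho, uto_one, by rw [mul_one]⟩
    by_cases h1 : a = q ∧ d = p
    · rw [h1.1, h1.2]
      exact he
    · exact hy a d hda h1 hex

theorem pio_up {m : ℕ} (i : Fin (m + 1)) (hi : i ≠ Fin.last m) (y : Mat (2 * m + 1))
    (hy : ∀ a c, c < a → ¬ (a = (na i).succ ∧ c = (na i).castSucc) →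
      ¬ (a = Fin.rev (na i).castSucc ∧ c = Fin.rev (na i).succ) → y a c = 0)
    (ho : y * OO m * y.transpose = OO m) (w : Equiv.Perm (Fin (2 * m + 1 + 1))) (hs : SymP w)
    (hw : w⁻¹ (na i).castSucc < w⁻¹ (na i).succ) :
    (y (na i).succ (na i).castSucc ≠ 0 → CellO (y * pm w) (swO i * w)) ∧
    (y (na i).succ (na i).castSucc = 0 → CellO (y * pm w) w) := by
  have him : (i : ℕ) < m := by
    have h1 := i.2
    have h2 : (i : ℕ) ≠ m := fun h => hi (Fin.ext h)
    omega
  have vp : ((na i).castSucc : ℕ) = i := rfl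
  have vq : ((na i).succ : ℕ) = i + 1 := rfl
  have vrp : (Fin.rev (na i).castSucc : ℕ) = 2 * m + 1 - i := by
    rw [Fin.val_rev, vp]
    omega
  have vrq : (Fin.rev (na i).succ : ℕ) = 2 * m - i := by
    rw [Fin.val_rev, vq]
    omega
  refine PiO_main Fin.castSucc_lt_succ ?_ (fun a h1 h2 => ?_) (fun a h1 h2 => ?_) y hy ho w hs (swO i) (symP_swO i hi) ?_ hw
  · rw [Fin.lt_def, vq, vrq]
    omega
  · have h3 : (a : ℕ) ≠ (na i).succ := fun e => h2 (Fin.ext e)
    rw [Fin.lt_def] at h1 ⊢
    rw [vp] at h1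
    rw [vq] at h3 ⊢
    omega
  · have h3 : (a : ℕ) ≠ Fin.rev (na i).castSucc := fun e => h2 (Fin.ext e)
    rw [Fin.lt_def] at h1 ⊢
    rw [vrq] at h1
    rw [vrp] at h3 ⊢
    omega
  · rw [swO]
    have g0 : ((na i : Fin (2 * m + 1)) : ℕ) = i := rfl
    have g1 : (Fin.rev (na i)).castSucc = Fin.rev (na i).succ := by
      refine Fin.ext ?_
      rw [Fin.val_castSucc, Fin.val_rev, vrq, g0]
      omega
    have g2 : (Fin.rev (na i)).succ = Fin.rev (na i).castSucc := by
      refine Fin.ext ?_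
      rw [Fin.val_succ, Fin.val_rev, vrp, g0]
      omega
    rw [g1, g2]

end Pool.Agent.Lib.MP_f146a9_al.DV
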