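import Pool.Agent.Lib.MP_f146a9_al.DVD.PiO

/-! Multiplication by an orthogonal generator moves an orthogonal cell by at most one step. -/

namespace Pool.Agent.Lib.MP_f146a9_al.DV

private theorem cell_mul_right {m : ℕ} {z c : Mat (2 * m + 1)} {v : Equiv.Perm (Fin (2 * m + 1 + 1))}
    (h : CellO z v) (hc : UTO c) : CellO (z * c) v := by
  obtain ⟨b, d, hb, hd, e⟩ := h
  exact ⟨b, d * c, hb, uto_mul hd hc, by rw [e, mul_assoc]⟩

private theorem vec_mul_apply {n : ℕ} (u f : Fin (n + 1) → ℚ) (k : ℚ) (b : Mat n) (a d : Fin (n + 1)) :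
    (((1 : Mat n) + k • Matrix.vecMulVec u f) * b) a d = b a d + k * (u a * ∑ e, f e * b e d) := by
  have h : (Matrix.vecMulVec u f * b) a d = u a * ∑ e, f e * b e d := by
    rw [Matrix.mul_apply, Finset.mul_sum]
    refine Finset.sum_congr rfl fun e _ => ?_
    rw [Matrix.vecMulVec_apply]
    ring
  rw [add_mul, one_mul, Matrix.add_apply, Matrix.smul_mul, Matrix.smul_apply, smul_eq_mul, h]

private theorem sum_fv {n : ℕ} (i : Fin n) (b : Mat n) (d : Fin (n + 1)) :
    ∑ e, fv i e * b e d = b i.castSucc d - b i.succ d := by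
  have hne : i.castSucc ≠ i.succ := (Fin.castSucc_lt_succ).ne
  rw [Finset.sum_eq_add_of_mem i.castSucc i.succ (Finset.mem_univ _) (Finset.mem_univ _) hne]
  · simp [fv, hne.symm, sub_eq_add_neg]
  · rintro e _ ⟨h1, h2⟩
    simp [fv, h1, h2]

private theorem sum_uv {n : ℕ} (i : Fin n) (b : Mat n) (d : Fin (n + 1)) :
    ∑ e, uv i e * b e d = b i.castSucc d + b i.succ d := by
  have hne : i.castSucc ≠ i.succ := (Fin.castSucc_lt_succ).ne
  rw [Finset.sum_eq_add_of_mem i.castSucc i.succ (Finset.mem_univ _) (Finset.mem_univ _) hne]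
  · simp [uv, hne.symm]
  · rintro e _ ⟨h1, h2⟩
    simp [uv, h1, h2]

private theorem gen_mul_apply {n : ℕ} (i : Fin n) (k : ℚ) (b : Mat n) (a d : Fin (n + 1)) :
    (gen i k * b) a d = b a d + k * (uv i a * (b i.castSucc d - b i.succ d)) := by
  rw [gen, vec_mul_apply, sum_fv]

private theorem gen2_mul_apply {n : ℕ} (i : Fin n) (k : ℚ) (b : Mat n) (a d : Fin (n + 1)) :
    (gen2 i k * b) a d = b a d + k * (fv i a * (b i.castSucc d + b i.succ d)) := by
  rw [gen2, vec_mul_apply, sum_uv]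

private theorem ne_of_v {n : ℕ} {a b : Fin n} (h : (a : ℕ) ≠ b) : a ≠ b := fun e => h (congrArg Fin.val e)

private theorem vals {m : ℕ} (i : Fin (m + 1)) :
    (((na i).castSucc : Fin (2 * m + 1 + 1)) : ℕ) = i ∧ (((na i).succ : Fin (2 * m + 1 + 1)) : ℕ) = i + 1 ∧
    ((Fin.rev (na i).castSucc : Fin (2 * m + 1 + 1)) : ℕ) = 2 * m + 1 - i ∧
    ((Fin.rev (na i).succ : Fin (2 * m + 1 + 1)) : ℕ) = 2 * m - i := by
  have hi := i.2
  refine ⟨by simp [na], by simp [na], ?_, ?_⟩
  · simp only [na, Fin.val_rev, Fin.val_castSucc]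
    omega
  · simp only [na, Fin.val_rev, Fin.val_succ]
    omega

private theorem genO_mul_apply {m : ℕ} (i : Fin (m + 1)) (hi : i ≠ Fin.last m) (k : ℚ)
    (b : Mat (2 * m + 1)) (a d : Fin (2 * m + 1 + 1)) :
    (genO i k * b) a d = b a d +
      k * (fv (Fin.rev (na i)) a * (b (Fin.rev (na i).succ) d + b (Fin.rev (na i).castSucc) d)) +
      k * (uv (na i) a * (b (na i).castSucc d - b (na i).succ d)) := by
  have hi2 := i.2
  have him : (i : ℕ) ≠ m := fun e => hi (Fin.ext e)
  obtain ⟨v1, v2, v3, v4⟩ := vals i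
  have e1 : (Fin.rev (na i)).castSucc = Fin.rev (na i).succ := (Fin.rev_succ _).symm
  have e2 : (Fin.rev (na i)).succ = Fin.rev (na i).castSucc := (Fin.rev_castSucc _).symm
  have z1 : fv (Fin.rev (na i)) (na i).castSucc = 0 := by
    rw [fv, e1, e2, if_neg (ne_of_v (by omega)), if_neg (ne_of_v (by omega))]
  have z2 : fv (Fin.rev (na i)) (na i).succ = 0 := by
    rw [fv, e1, e2, if_neg (ne_of_v (by omega)), if_neg (ne_of_v (by omega))]
  rw [genO, mul_assoc, gen_mul_apply, gen2_mul_apply, gen2_mul_apply, gen2_mul_apply, z1, z2, e1, e2]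
  ring

private theorem low {m : ℕ} (i : Fin (m + 1)) (hi : i ≠ Fin.last m) (k : ℚ) {b : Mat (2 * m + 1)}
    (hb : UT b) : ∀ a c, c < a → ¬ (a = (na i).succ ∧ c = (na i).castSucc) →
      ¬ (a = Fin.rev (na i).castSucc ∧ c = Fin.rev (na i).succ) → (genO i k * b) a c = 0 := by
  intro a d hda hn hn'
  have hi2 := i.2
  have him : (i : ℕ) ≠ m := fun e => hi (Fin.ext e)
  obtain ⟨v1, v2, v3, v4⟩ := vals i
  have e1 : (Fin.rev (na i)).castSucc = Fin.rev (na i).succ := (Fin.rev_succ _).symm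
  have e2 : (Fin.rev (na i)).succ = Fin.rev (na i).castSucc := (Fin.rev_castSucc _).symm
  rw [genO_mul_apply i hi, hb.1 a d hda]
  have hda' := Fin.lt_def.1 hda
  have A : fv (Fin.rev (na i)) a * (b (Fin.rev (na i).succ) d + b (Fin.rev (na i).castSucc) d) = 0 := by
    by_cases h1 : a = Fin.rev (na i).succ
    · have h1' := congrArg Fin.val h1
      rw [hb.1 _ d (Fin.lt_def.2 (by omega)), hb.1 _ d (Fin.lt_def.2 (by omega))]
      ring
    · by_cases h2 : a = Fin.rev (na i).castSucc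
      · have h1' := congrArg Fin.val h2
        have h3 : (d : ℕ) ≠ 2 * m - i := fun h => hn' ⟨h2, Fin.ext (by omega)⟩
        rw [hb.1 _ d (Fin.lt_def.2 (by omega)), hb.1 _ d (Fin.lt_def.2 (by omega))]
        ring
      · rw [fv, e1, e2, if_neg h1, if_neg h2, zero_mul]
  have B : uv (na i) a * (b (na i).castSucc d - b (na i).succ d) = 0 := by
    by_cases h1 : a = (na i).castSucc
    · have h1' := congrArg Fin.val h1
      rw [hb.1 _ d (Fin.lt_def.2 (by omega)), hb.1 _ d (Fin.lt_def.2 (by omega))]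
      ring
    · by_cases h2 : a = (na i).succ
      · have h1' := congrArg Fin.val h2
        have h3 : (d : ℕ) ≠ i := fun h => hn ⟨h2, Fin.ext (by omega)⟩
        rw [hb.1 _ d (Fin.lt_def.2 (by omega)), hb.1 _ d (Fin.lt_def.2 (by omega))]
        ring
      · rw [uv, if_neg h1, if_neg h2, zero_mul]
  rw [A, B]
  ring

private theorem corner {m : ℕ} (i : Fin (m + 1)) (hi : i ≠ Fin.last m) (k : ℚ) {b : Mat (2 * m + 1)}
    (hb : UT b) : (genO i k * b) (na i).succ (na i).castSucc = k * b (na i).castSucc (na i).castSucc := by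
  have hi2 := i.2
  have him : (i : ℕ) ≠ m := fun e => hi (Fin.ext e)
  obtain ⟨v1, v2, v3, v4⟩ := vals i
  have e1 : (Fin.rev (na i)).castSucc = Fin.rev (na i).succ := (Fin.rev_succ _).symm
  have e2 : (Fin.rev (na i)).succ = Fin.rev (na i).castSucc := (Fin.rev_castSucc _).symm
  have z2 : fv (Fin.rev (na i)) (na i).succ = 0 := by
    rw [fv, e1, e2, if_neg (ne_of_v (by omega)), if_neg (ne_of_v (by omega))]
  have z3 : uv (na i) (na i).succ = 1 := by simp [uv]
  have hpq : (na i).castSucc < (na i).succ := Fin.castSucc_lt_succ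
  rw [genO_mul_apply i hi, z2, z3, hb.1 _ _ hpq]
  ring

private theorem swO_val {m : ℕ} (j : Fin (m + 1)) (hj : j ≠ Fin.last m) (a : Fin (2 * m + 1 + 1)) :
    ((swO j a : Fin (2 * m + 1 + 1)) : ℕ) = if (a : ℕ) = j then (j : ℕ) + 1 else if (a : ℕ) = j + 1 then (j : ℕ)
      else if (a : ℕ) = 2 * m - j then 2 * m + 1 - j else if (a : ℕ) = 2 * m + 1 - j then 2 * m - j
      else (a : ℕ) := by
  have hj2 := j.2
  have haa := a.2
  have hjm : (j : ℕ) ≠ m := fun e => hj (Fin.ext e)
  unfold swO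
  rw [Equiv.Perm.mul_apply, Equiv.swap_apply_def, Equiv.swap_apply_def]
  by_cases c1 : (a : ℕ) = 2 * m - j
  · have d1 : a = (Fin.rev (na j)).castSucc := Fin.ext (by simp [na]; omega)
    have d2 : (Fin.rev (na j)).succ ≠ (na j).castSucc := ne_of_v (by simp [na]; omega)
    have d3 : (Fin.rev (na j)).succ ≠ (na j).succ := ne_of_v (by simp [na]; omega)
    rw [if_pos d1, if_neg d2, if_neg d3, if_neg (by omega), if_neg (by omega), if_pos c1]
    simp [na]
    omega
  · have d1 : a ≠ (Fin.rev (na j)).castSucc := ne_of_v (by simp [na]; omega)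
    rw [if_neg d1]
    by_cases c2 : (a : ℕ) = 2 * m + 1 - j
    · have d2 : a = (Fin.rev (na j)).succ := Fin.ext (by simp [na]; omega)
      have d3 : (Fin.rev (na j)).castSucc ≠ (na j).castSucc := ne_of_v (by simp [na]; omega)
      have d4 : (Fin.rev (na j)).castSucc ≠ (na j).succ := ne_of_v (by simp [na]; omega)
      rw [if_pos d2, if_neg d3, if_neg d4, if_neg (by omega), if_neg (by omega), if_neg c1, if_pos c2]
      simp [na]
    · have d2 : a ≠ (Fin.rev (na j)).succ := ne_of_v (by simp [na]; omega)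
      rw [if_neg d2]
      by_cases c3 : (a : ℕ) = j
      · have d3 : a = (na j).castSucc := Fin.ext (by simp [na]; omega)
        rw [if_pos d3, if_pos c3]
        simp [na]
      · have d3 : a ≠ (na j).castSucc := ne_of_v (by simp [na]; omega)
        rw [if_neg d3, if_neg c3]
        by_cases c4 : (a : ℕ) = j + 1
        · have d4 : a = (na j).succ := Fin.ext (by simp [na]; omega)
          rw [if_pos d4, if_pos c4]
          simp [na]
        · have d4 : a ≠ (na j).succ := ne_of_v (by simp [na]; omega)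
          rw [if_neg d4, if_neg c4, if_neg c1, if_neg c2]

theorem stepO_up {m : ℕ} (i : Fin (m + 1)) (hi : i ≠ Fin.last m) {k : ℚ} (hk : k ≠ 0)
    {x : Mat (2 * m + 1)} {w : Equiv.Perm (Fin (2 * m + 1 + 1))} (h : CellO x w) (hs : SymP w)
    (hw : w⁻¹ (na i).castSucc < w⁻¹ (na i).succ) : CellO (genO i k * x) (swO i * w) := by
  obtain ⟨b, c, hb, hc, e⟩ := h
  have h0 : (genO i k * b) (na i).succ (na i).castSucc ≠ 0 := by
    rw [corner i hi k hb.1]
    exact mul_ne_zero hk (ut_diag hb.1 _)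
  have h2 := (pio_up i hi (genO i k * b) (low i hi k hb.1) (ort_mul (genO_ort i hi k) hb.2) w hs hw).1 h0
  have h3 : genO i k * x = genO i k * b * pm w * c := by
    rw [e]
    simp only [mul_assoc]
  rw [h3]
  exact cell_mul_right h2 hc

theorem stepO_down {m : ℕ} (i : Fin (m + 1)) (hi : i ≠ Fin.last m) (k : ℚ)
    {x : Mat (2 * m + 1)} {w : Equiv.Perm (Fin (2 * m + 1 + 1))} (h : CellO x w) (hs : SymP w)
    (hw : w⁻¹ (na i).succ < w⁻¹ (na i).castSucc) :
    CellO (genO i k * x) w ∨ CellO (genO i k * x) (swO i * w) := by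
  obtain ⟨b, c, hb, hc, e⟩ := h
  have hi2 := i.2
  have him : (i : ℕ) ≠ m := fun e => hi (Fin.ext e)
  obtain ⟨v1, v2, v3, v4⟩ := vals i
  have hval := swO_val i hi
  have hsym := symP_swO i hi
  obtain ⟨s, hs'⟩ : ∃ s : Equiv.Perm (Fin (2 * m + 1 + 1)), s = swO i := ⟨_, rfl⟩
  rw [← hs'] at hval hsym ⊢
  have hss1 : ∀ a, s (s a) = a := by
    intro a
    have haa := a.2
    apply Fin.ext
    rw [hval, hval]
    split_ifs <;> omega
  have hss : s * s = 1 := by
    ext a
    rw [Equiv.Perm.mul_apply, hss1, Equiv.Perm.one_apply]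
  have hsi : s⁻¹ = s := inv_eq_of_mul_eq_one_right hss
  have hsp : s (na i).castSucc = (na i).succ := by
    apply Fin.ext
    rw [hval, v1, v2, if_pos rfl]
  have hsq : s (na i).succ = (na i).castSucc := by rw [← hsp, hss1]
  have hw' : (s * w)⁻¹ (na i).castSucc < (s * w)⁻¹ (na i).succ := by
    rw [mul_inv_rev, hsi, Equiv.Perm.mul_apply, Equiv.Perm.mul_apply, hsp, hsq]
    exact hw
  have hsw : s * (s * w) = w := by rw [← mul_assoc, hss, one_mul]
  have hpp : pm s * pm s = (1 : Mat (2 * m + 1)) := by rw [← pm_mul, hss, pm_one]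
  obtain ⟨y, hy⟩ : ∃ y : Mat (2 * m + 1), y = genO i k * b * pm s := ⟨_, rfl⟩
  have hlow : ∀ a c, c < a → ¬ (a = (na i).succ ∧ c = (na i).castSucc) →
      ¬ (a = Fin.rev (na i).castSucc ∧ c = Fin.rev (na i).succ) → y a c = 0 := by
    intro a d hda hn hn'
    rw [hy, mul_pm_apply]
    have hda' := Fin.lt_def.1 hda
    have hn1 : ¬ ((a : ℕ) = i + 1 ∧ (d : ℕ) = i) := fun h =>
      hn ⟨Fin.ext (by omega), Fin.ext (by omega)⟩
    have hn2 : ¬ ((a : ℕ) = 2 * m + 1 - i ∧ (d : ℕ) = 2 * m - i) := fun h =>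
      hn' ⟨Fin.ext (by omega), Fin.ext (by omega)⟩
    have hsd := hval d
    have haa := a.2
    refine low i hi k hb.1 a (s d) ?_ ?_ ?_
    · rw [Fin.lt_def, hsd]
      split_ifs <;> omega
    · rintro ⟨h1, h2⟩
      have h1' := congrArg Fin.val h1
      have h2' := congrArg Fin.val h2
      rw [hsd] at h2'
      split_ifs at h2' <;> omega
    · rintro ⟨h1, h2⟩
      have h1' := congrArg Fin.val h1
      have h2' := congrArg Fin.val h2
      rw [hsd] at h2'
      split_ifs at h2' <;> omega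
  have hort : y * OO m * y.transpose = OO m := by
    rw [hy]
    exact ort_mul (ort_mul (genO_ort i hi k) hb.2) (pm_ort hsym)
  have h3 : genO i k * x = y * pm (s * w) * c := by
    rw [e, hy, pm_mul]
    calc genO i k * (b * pm w * c) = genO i k * b * (pm w * c) := by simp only [mul_assoc]
      _ = genO i k * b * ((pm s * pm s) * (pm w * c)) := by rw [hpp, one_mul]
      _ = genO i k * b * pm s * (pm s * pm w) * c := by simp only [mul_assoc]
  rw [h3]
  have h4 := pio_up i hi y hlow hort (s * w) (symP_mul hsym hs) hw'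
  by_cases h0 : y (na i).succ (na i).castSucc = 0
  · right
    exact cell_mul_right (h4.2 h0) hc
  · left
    have h5 := h4.1 h0
    rw [← hs', hsw] at h5
    exact cell_mul_right h5 hc

end Pool.Agent.Lib.MP_f146a9_al.DV
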